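import Pool.Agent.U524.RO.Local

set_option autoImplicit false

open Set Metric Topology Filter

namespace Pool.Agent.U524.RO

variable {X : Type*} [NormedAddCommGroup X] [NormedSpace ℂ X]

theorem mul_res' (T : X →L[ℂ] X) {z : ℂ} (hz : z ∈ resolventSet ℂ T) :
    T * resolvent T z = z • resolvent T z - 1 := by
  have h : (algebraMap ℂ (X →L[ℂ] X) z - T) * resolvent T z = 1 :=
    Ring.mul_inverse_cancel _ hz
  rw [sub_mul, Algebra.algebraMap_eq_smul_one, smul_one_mul] at h
  rw [← h]; abel

theorem poly_res (T : X →L[ℂ] X) (p : Polynomial ℂ) :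
    ∃ E : ℂ → (X →L[ℂ] X), Differentiable ℂ E ∧
      ∀ z ∈ resolventSet ℂ T,
        Polynomial.aeval T p * resolvent T z = p.eval z • resolvent T z + E z := by
  induction p using Polynomial.induction_on with
  | C a =>
    refine ⟨fun _ => 0, differentiable_const _, fun z _ => ?_⟩
    rw [Polynomial.aeval_C, Polynomial.eval_C, Algebra.algebraMap_eq_smul_one, smul_one_mul,
      add_zero]
  | add p q hp hq =>
    obtain ⟨E₁, hE₁, h₁⟩ := hp
    obtain ⟨E₂, hE₂, h₂⟩ := hq
    refine ⟨fun z => E₁ z + E₂ z, hE₁.add hE₂, fun z hz => ?_⟩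
    rw [map_add, add_mul, h₁ z hz, h₂ z hz, Polynomial.eval_add, add_smul]
    exact add_add_add_comm _ _ _ _
  | monomial n a ih =>
    obtain ⟨E, hE, h⟩ := ih
    refine ⟨fun z => T * E z - (Polynomial.eval z (Polynomial.C a * Polynomial.X ^ n)) •
      (1 : X →L[ℂ] X), ?_, fun z hz => ?_⟩
    · refine ((differentiable_const T).mul hE).sub ?_
      have hpd : Differentiable ℂ fun z : ℂ =>
          Polynomial.eval z (Polynomial.C a * Polynomial.X ^ n) := Polynomial.differentiable _
      exact hpd.smul_const _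
    · have h1 : Polynomial.aeval T (Polynomial.C a * Polynomial.X ^ (n + 1)) =
          T * Polynomial.aeval T (Polynomial.C a * Polynomial.X ^ n) := by
        rw [map_mul, map_mul, map_pow, map_pow, Polynomial.aeval_X, pow_succ,
          Polynomial.aeval_C, Algebra.algebraMap_eq_smul_one, smul_one_mul, smul_one_mul,
          mul_smul_comm, ← pow_succ, pow_succ']
      have h2 : Polynomial.eval z (Polynomial.C a * Polynomial.X ^ (n + 1)) =
          Polynomial.eval z (Polynomial.C a * Polynomial.X ^ n) * z := by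
        simp only [Polynomial.eval_mul, Polynomial.eval_C, Polynomial.eval_pow,
          Polynomial.eval_X]
        ring
      rw [h1, mul_assoc, h z hz, mul_add, mul_smul_comm, mul_res' T hz, smul_sub, smul_smul, h2]
      abel

variable [CompleteSpace X]

theorem mem_res_iff (T : X →L[ℂ] X) (z : ℂ) : z ∈ resolventSet ℂ T ↔ z ∉ spectrum ℂ T := by
  simp [spectrum]

/-- If all boundary points of the spectrum are poles then `T` is algebraic. -/
theorem algebraic_of_poles [Nontrivial X] (T : X →L[ℂ] X)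
    (h : ∀ w ∈ frontier (spectrum ℂ T), IsPole T w) :
    ∃ p : Polynomial ℂ, p ≠ 0 ∧ Polynomial.aeval T p = 0 := by
  classical
  set K := spectrum ℂ T with hKdef
  have hK : IsClosed K := spectrum.isClosed T
  have hKc : IsCompact K := spectrum.isCompact T
  have hFc : IsCompact (frontier K) := hKc.of_isClosed_subset isClosed_frontier hK.frontier_subset
  have hiso : ∀ w ∈ frontier K, ∀ᶠ z in 𝓝[≠] w, z ∉ K := by
    intro w hw
    obtain ⟨m, C, hm⟩ := h w hw
    exact hm.mono fun z hz => hz.1
  have hFfin : (frontier K).Finite := by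
    by_contra hinf
    obtain ⟨w, hwF, hacc⟩ := Set.Infinite.exists_accPt_of_subset_isCompact hinf hFc Subset.rfl
    rw [accPt_iff_frequently_nhdsNE] at hacc
    obtain ⟨z, hz1, hz2⟩ := (hacc.and_eventually (hiso w hwF)).exists
    exact hz2 (hK.frontier_subset hz1)
  have hfar : ((‖T‖ + 1 : ℝ) : ℂ) ∉ K := by
    rw [← mem_res_iff]
    refine mem_res_of_lt T ?_
    rw [Complex.norm_real, Real.norm_of_nonneg (by positivity)]
    linarith
  have hKF : K ⊆ frontier K := by
    intro z hz
    by_contra hzF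
    have hpre : IsPreconnected (frontier K)ᶜ :=
      (hFfin.countable.isConnected_compl_of_one_lt_rank
        (Complex.rank_real_complex ▸ Nat.one_lt_ofNat)).isPreconnected
    have hsub : (frontier K)ᶜ ⊆ interior K ∪ Kᶜ := by
      intro y hy
      by_cases hyK : y ∈ K
      · left
        by_contra hyi
        exact hy ⟨subset_closure hyK, hyi⟩
      · right; exact hyK
    have h1 := hpre (interior K) Kᶜ isOpen_interior hK.isOpen_compl hsub
      ⟨z, hzF, by
        rcases hsub hzF with h1 | h1
        · exact h1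
        · exact absurd hz h1⟩
      ⟨_, fun hy => hfar (hK.frontier_subset hy), hfar⟩
    obtain ⟨y, -, hy1, hy2⟩ := h1
    exact hy2 (interior_subset hy1)
  have hKfin : K.Finite := hFfin.subset hKF
  have hpole : ∀ w ∈ K, ∃ (m : ℕ) (C : ℝ), ∀ᶠ z in 𝓝[≠] w, z ∉ K ∧
      ‖z - w‖ ^ m * ‖resolvent T z‖ ≤ C := fun w hw => h w (hKF hw)
  choose! m C hmC using hpole
  set s : Finset ℂ := hKfin.toFinset with hs
  have hsK : ∀ w, w ∈ s ↔ w ∈ K := fun w => by rw [hs]; exact hKfin.mem_toFinset
  set p : Polynomial ℂ := ∏ w ∈ s, (Polynomial.X - Polynomial.C w) ^ (m w + 1) with hp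
  have hp0 : p ≠ 0 := by
    rw [hp, Finset.prod_ne_zero_iff]
    intro w _
    exact pow_ne_zero _ (Polynomial.X_sub_C_ne_zero w)
  refine ⟨p, hp0, ?_⟩
  obtain ⟨E, hE, hEeq⟩ := poly_res T p
  set Ψ : ℂ → (X →L[ℂ] X) := fun z => if z ∈ K then 0 else p.eval z • resolvent T z with hΨ
  have hΨin : ∀ z ∈ K, Ψ z = 0 := fun z hz => by simp only [hΨ, if_pos hz]
  have hΨout : ∀ z, z ∉ K → Ψ z = p.eval z • resolvent T z := fun z hz => by
    simp only [hΨ, if_neg hz]
  have hΨd1 : ∀ z, z ∉ K → DifferentiableAt ℂ Ψ z := by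
    intro z hz
    have hzr : z ∈ resolventSet ℂ T := (mem_res_iff T z).2 hz
    have h1 : DifferentiableAt ℂ (fun z => p.eval z • resolvent T z) z :=
      (p.differentiable z).smul (spectrum.hasDerivAt_resolvent_const_left hzr).differentiableAt
    refine h1.congr_of_eventuallyEq ?_
    filter_upwards [hK.isOpen_compl.mem_nhds hz] with y hy
    exact hΨout y hy
  have hΨd : Differentiable ℂ Ψ := by
    intro w
    by_cases hw : w ∈ K
    · refine AnalyticAt.differentiableAt ?_
      refine Complex.analyticAt_of_differentiable_on_punctured_nhds_of_continuousAt ?_ ?_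
      · filter_upwards [hmC w hw] with z hz
        exact hΨd1 z hz.1
      · -- continuity at `w`
        set rest : Polynomial ℂ := ∏ a ∈ s.erase w, (Polynomial.X - Polynomial.C a) ^ (m a + 1)
          with hrest
        have hprod : p = (Polynomial.X - Polynomial.C w) ^ (m w + 1) * rest := by
          rw [hp, hrest]
          exact (Finset.mul_prod_erase s
            (fun a => (Polynomial.X - Polynomial.C a) ^ (m a + 1)) ((hsK w).2 hw)).symm
        have h1 : Tendsto (fun z : ℂ => ‖z - w‖ * ‖rest.eval z‖ * C w) (𝓝 w) (𝓝 0) := by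
          have hc : Continuous fun z : ℂ => ‖z - w‖ * ‖rest.eval z‖ * C w := by fun_prop
          have h2 := hc.tendsto w
          simpa using h2
        rw [continuousAt_iff_punctured_nhds, hΨin w hw, tendsto_zero_iff_norm_tendsto_zero]
        refine squeeze_zero' (Eventually.of_forall fun y => norm_nonneg _) ?_
          (h1.mono_left nhdsWithin_le_nhds)
        filter_upwards [hmC w hw] with z hz
        rw [hΨout z hz.1, norm_smul, hprod, Polynomial.eval_mul, Polynomial.eval_pow,
          Polynomial.eval_sub, Polynomial.eval_X, Polynomial.eval_C, norm_mul, norm_pow]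
        calc ‖z - w‖ ^ (m w + 1) * ‖rest.eval z‖ * ‖resolvent T z‖
            = ‖z - w‖ * ‖rest.eval z‖ * (‖z - w‖ ^ m w * ‖resolvent T z‖) := by ring
          _ ≤ ‖z - w‖ * ‖rest.eval z‖ * C w := by
              gcongr
              exact hz.2
    · exact hΨd1 w hw
  set Φ : ℂ → (X →L[ℂ] X) := fun z => Ψ z + E z with hΦ
  have hΦd : Differentiable ℂ Φ := hΨd.add hE
  have hΦout : ∀ z, z ∉ K → Φ z = Polynomial.aeval T p * resolvent T z := by
    intro z hz
    rw [hEeq z ((mem_res_iff T z).2 hz), hΦ]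
    simp only
    rw [hΨout z hz]
  have hlim : Tendsto Φ (cocompact ℂ) (𝓝 0) := by
    have h1 : Tendsto (fun z => Polynomial.aeval T p * resolvent T z) (cocompact ℂ) (𝓝 0) := by
      have h2 : Tendsto (resolvent T) (cocompact ℂ) (𝓝 0) := by
        simpa [Metric.cobounded_eq_cocompact] using
          spectrum.resolvent_tendsto_cobounded (𝕜 := ℂ) T
      have h3 := h2.const_mul (Polynomial.aeval T p)
      rwa [mul_zero] at h3
    refine h1.congr' ?_
    filter_upwards [hKc.compl_mem_cocompact] with z hz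
    exact (hΦout z hz).symm
  have hz := hΦd.apply_eq_of_tendsto_cocompact ((‖T‖ + 1 : ℝ) : ℂ) hlim
  rw [hΦout _ hfar] at hz
  have hfr : ((‖T‖ + 1 : ℝ) : ℂ) ∈ resolventSet ℂ T := (mem_res_iff T _).2 hfar
  have h1 : resolvent T ((‖T‖ + 1 : ℝ) : ℂ) *
      (algebraMap ℂ (X →L[ℂ] X) ((‖T‖ + 1 : ℝ) : ℂ) - T) = 1 :=
    Ring.inverse_mul_cancel _ hfr
  calc Polynomial.aeval T p = Polynomial.aeval T p * (resolvent T ((‖T‖ + 1 : ℝ) : ℂ) *
      (algebraMap ℂ (X →L[ℂ] X) ((‖T‖ + 1 : ℝ) : ℂ) - T)) := by rw [h1, mul_one]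
    _ = 0 := by rw [← mul_assoc, hz, zero_mul]

end Pool.Agent.U524.RO
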