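import Mathlib

set_option autoImplicit false

open Set Metric Topology Filter

namespace Pool.Agent.U524.RO

variable {X : Type*} [NormedAddCommGroup X] [NormedSpace ℂ X]

/-- The rank one perturbation `x ↦ T x + v(x) u` of `T`. -/
noncomputable def pert (T : X →L[ℂ] X) (u : X) (v : X →L[ℂ] ℂ) : X →L[ℂ] X := T + v.smulRight u

theorem pert_apply (T : X →L[ℂ] X) (u : X) (v : X →L[ℂ] ℂ) (x : X) :
    pert T u v x = T x + v x • u := by
  simp [pert]

/-- the function `v ((z - T)⁻¹ u)` -/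
noncomputable def F (T : X →L[ℂ] X) (u : X) (v : X →L[ℂ] ℂ) (z : ℂ) : ℂ := v (resolvent T z u)

theorem res_mul (T : X →L[ℂ] X) {z : ℂ} (hz : z ∈ resolventSet ℂ T) (x : X) :
    z • resolvent T z x - T (resolvent T z x) = x := by
  have h : (algebraMap ℂ (X →L[ℂ] X) z - T) * resolvent T z = 1 :=
    Ring.mul_inverse_cancel _ hz
  have h2 := congrArg (fun A : X →L[ℂ] X => A x) h
  simpa [Algebra.algebraMap_eq_smul_one] using h2

theorem mul_res (T : X →L[ℂ] X) {z : ℂ} (hz : z ∈ resolventSet ℂ T) (x : X) :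
    resolvent T z (z • x - T x) = x := by
  have h : resolvent T z * (algebraMap ℂ (X →L[ℂ] X) z - T) = 1 :=
    Ring.inverse_mul_cancel _ hz
  have h2 := congrArg (fun A : X →L[ℂ] X => A x) h
  simpa [Algebra.algebraMap_eq_smul_one] using h2

/-- A value `1` of `F` gives a simple eigenvalue of the perturbation. -/
theorem eig_of_F (T : X →L[ℂ] X) (u : X) (v : X →L[ℂ] ℂ) {z : ℂ} (hz : z ∈ resolventSet ℂ T)
    (h : F T u v z = 1) :
    ∃ x : X, x ≠ 0 ∧ pert T u v x = z • x ∧ ∀ y, pert T u v y = z • y → y = v y • x := by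
  refine ⟨resolvent T z u, ?_, ?_, ?_⟩
  · intro h0
    unfold F at h
    rw [h0, map_zero] at h
    exact zero_ne_one h
  · rw [pert_apply]
    have h1 := res_mul T hz u
    unfold F at h
    rw [h, one_smul]
    rw [sub_eq_iff_eq_add] at h1
    rw [h1, add_comm]
  · intro y hy
    rw [pert_apply] at hy
    have h1 : z • y - T y = v y • u := by
      rw [← hy]; abel
    have h2 := mul_res T hz y
    rw [h1, map_smul] at h2
    exact h2.symm

variable [CompleteSpace X]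

theorem F_differentiableAt (T : X →L[ℂ] X) (u : X) (v : X →L[ℂ] ℂ) {z : ℂ}
    (hz : z ∈ resolventSet ℂ T) : DifferentiableAt ℂ (F T u v) z := by
  have h1 : DifferentiableAt ℂ (resolvent T) z := (spectrum.hasDerivAt_resolvent hz).differentiableAt
  have h2 : DifferentiableAt ℂ (fun w => resolvent T w u) z :=
    h1.clm_apply (differentiableAt_const u)
  exact v.differentiableAt.comp z h2

/-- The norm of the resolvent near the spectrum. -/
theorem one_le_dist_mul (T : X →L[ℂ] X) {z w : ℂ} (hz : z ∈ resolventSet ℂ T)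
    (hw : w ∉ resolventSet ℂ T) : 1 ≤ ‖z - w‖ * ‖resolvent T z‖ := by
  by_contra hcon
  push Not at hcon
  apply hw
  have h1 : ‖(z - w) • resolvent T z‖ < 1 := by rwa [norm_smul]
  have h2 : IsUnit (1 - (z - w) • resolvent T z) := isUnit_one_sub_of_norm_lt_one h1
  have h3 : algebraMap ℂ (X →L[ℂ] X) w - T =
      (algebraMap ℂ (X →L[ℂ] X) z - T) * (1 - (z - w) • resolvent T z) := by
    have h : (algebraMap ℂ (X →L[ℂ] X) z - T) * resolvent T z = 1 :=
      Ring.mul_inverse_cancel _ hz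
    rw [mul_sub, mul_one, mul_smul_comm, h, Algebra.algebraMap_eq_smul_one,
      Algebra.algebraMap_eq_smul_one, sub_smul]
    abel
  rw [spectrum.mem_resolventSet_iff, h3]
  exact IsUnit.mul hz h2

/-- The elementary estimate for polynomials of bidegree `(1, 1)` without zeros in a bidisc. -/
theorem bidisc (g b₁ b₂ α : ℂ) (ε : ℝ) (hε : 0 < ε)
    (h : ∀ a b : ℂ, ‖a‖ < ε → ‖b‖ < ε → g + a * b₁ + b * b₂ + a * b * α ≠ 0) :
    ‖α‖ ≤ 3 / ε ^ 2 * ‖g‖ := by
  have key : ∀ b : ℂ, ‖b‖ < ε → ε * ‖b₁ + b * α‖ ≤ ‖g + b * b₂‖ := by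
    intro b hb
    by_contra hcon
    push Not at hcon
    have hne : b₁ + b * α ≠ 0 := by
      intro h0
      rw [h0, norm_zero, mul_zero] at hcon
      exact absurd hcon (not_lt.2 (norm_nonneg _))
    refine h (-(g + b * b₂) / (b₁ + b * α)) b ?_ hb ?_
    · rw [norm_div, norm_neg, div_lt_iff₀ (norm_pos_iff.2 hne)]
      exact hcon
    · field_simp
      ring
  have key2 : ε * ‖b₂‖ ≤ ‖g‖ := by
    by_contra hcon
    push Not at hcon
    have hne : b₂ ≠ 0 := by
      intro h0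
      rw [h0, norm_zero, mul_zero] at hcon
      exact absurd hcon (not_lt.2 (norm_nonneg _))
    refine h 0 (-g / b₂) (by simpa using hε) ?_ ?_
    · rw [norm_div, norm_neg, div_lt_iff₀ (norm_pos_iff.2 hne)]
      exact hcon
    · field_simp
      ring
  have hb : ‖((ε / 2 : ℝ) : ℂ)‖ = ε / 2 := by
    rw [Complex.norm_real, Real.norm_of_nonneg (by positivity)]
  have e1 := key ((ε / 2 : ℝ) : ℂ) (by rw [hb]; linarith)
  have e2 := key (-((ε / 2 : ℝ) : ℂ)) (by rw [norm_neg, hb]; linarith)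
  have e3 : ε * ‖α‖ ≤ ‖b₁ + ((ε / 2 : ℝ) : ℂ) * α‖ + ‖b₁ + -((ε / 2 : ℝ) : ℂ) * α‖ := by
    have : ((ε : ℝ) : ℂ) * α = (b₁ + ((ε / 2 : ℝ) : ℂ) * α) - (b₁ + -((ε / 2 : ℝ) : ℂ) * α) := by
      push_cast; ring
    have h4 := norm_sub_le (b₁ + ((ε / 2 : ℝ) : ℂ) * α) (b₁ + -((ε / 2 : ℝ) : ℂ) * α)
    rw [← this, norm_mul, Complex.norm_real, Real.norm_of_nonneg hε.le] at h4
    exact h4
  have e4 : ‖g + ((ε / 2 : ℝ) : ℂ) * b₂‖ ≤ ‖g‖ + ε / 2 * ‖b₂‖ := by
    refine (norm_add_le _ _).trans ?_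
    rw [norm_mul, hb]
  have e5 : ‖g + -((ε / 2 : ℝ) : ℂ) * b₂‖ ≤ ‖g‖ + ε / 2 * ‖b₂‖ := by
    refine (norm_add_le _ _).trans ?_
    rw [norm_mul, norm_neg, hb]
  have e6 : ε * (ε * ‖α‖) ≤ 3 * ‖g‖ := by
    nlinarith
  rw [div_mul_eq_mul_div, le_div_iff₀ (by positivity)]
  nlinarith

end Pool.Agent.U524.RO
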