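import Mathlib

set_option autoImplicit false

open Set Metric Topology Filter

namespace Pool.Agent.U524.RO

theorem prod_bound (B : Set ℂ) (g : ℂ → ℂ) (C M : ℝ) (hC : 0 ≤ C) (hM : ∀ z ∈ B, ‖g z‖ ≤ M)
    (s : Finset ℂ) : (∀ z ∈ B, ∀ a ∈ s, ‖g z‖ ≤ C * ‖z - a‖) →
    ∃ C' : ℝ, 0 ≤ C' ∧ ∀ z ∈ B, ‖g z‖ ≤ C' * ‖∏ a ∈ s, (z - a)‖ := by
  classical
  induction s using Finset.induction_on with
  | empty =>
    intro _
    refine ⟨max M 0, le_max_right _ _, fun z hz => ?_⟩
    simpa using Or.inl (hM z hz)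
  | insert a s ha ih =>
    intro h
    obtain ⟨C', hC', hb⟩ := ih fun z hz b hb => h z hz b (Finset.mem_insert_of_mem hb)
    have hcl : IsClosed (s : Set ℂ) := s.finite_toSet.isClosed
    have hmem : (s : Set ℂ)ᶜ ∈ 𝓝 a := hcl.isOpen_compl.mem_nhds (by simpa using ha)
    obtain ⟨δ, hδ, hball⟩ := Metric.mem_nhds_iff.1 hmem
    have hsep : ∀ b ∈ s, δ ≤ ‖b - a‖ := by
      intro b hb
      by_contra hlt
      push Not at hlt
      exact hball (by rwa [mem_ball, dist_eq_norm]) hb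
    refine ⟨C' * (2 / δ) + C / (δ / 2) ^ s.card, by positivity, fun z hz => ?_⟩
    rw [Finset.prod_insert ha, norm_mul]
    have hp0 : 0 ≤ ‖∏ b ∈ s, (z - b)‖ := norm_nonneg _
    rcases le_or_gt (δ / 2) ‖z - a‖ with hza | hza
    · have h1 : 1 ≤ 2 / δ * ‖z - a‖ := by
        rw [div_mul_eq_mul_div, le_div_iff₀ hδ]; linarith
      calc ‖g z‖ ≤ C' * ‖∏ b ∈ s, (z - b)‖ := hb z hz
        _ = C' * ‖∏ b ∈ s, (z - b)‖ * 1 := by ring
        _ ≤ C' * ‖∏ b ∈ s, (z - b)‖ * (2 / δ * ‖z - a‖) := by gcongr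
        _ = C' * (2 / δ) * (‖z - a‖ * ‖∏ b ∈ s, (z - b)‖) := by ring
        _ ≤ (C' * (2 / δ) + C / (δ / 2) ^ s.card) * (‖z - a‖ * ‖∏ b ∈ s, (z - b)‖) := by
          gcongr
          have : 0 ≤ C / (δ / 2) ^ s.card := by positivity
          linarith
    · have h1 : (δ / 2) ^ s.card ≤ ‖∏ b ∈ s, (z - b)‖ := by
        rw [norm_prod, ← Finset.prod_const]
        refine Finset.prod_le_prod (fun b _ => by positivity) fun b hb' => ?_
        have h2 := hsep b hb'
        have h3 : ‖b - a‖ ≤ ‖z - b‖ + ‖z - a‖ := by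
          have : b - a = -(z - b) + (z - a) := by ring
          rw [this]
          refine (norm_add_le _ _).trans ?_
          rw [norm_neg]
        linarith
      calc ‖g z‖ ≤ C * ‖z - a‖ := h z hz a (Finset.mem_insert_self _ _)
        _ = C / (δ / 2) ^ s.card * (‖z - a‖ * (δ / 2) ^ s.card) := by field_simp
        _ ≤ C / (δ / 2) ^ s.card * (‖z - a‖ * ‖∏ b ∈ s, (z - b)‖) := by gcongr
        _ ≤ (C' * (2 / δ) + C / (δ / 2) ^ s.card) * (‖z - a‖ * ‖∏ b ∈ s, (z - b)‖) := by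
          gcongr
          have : 0 ≤ C' * (2 / δ) := by positivity
          linarith

theorem root_trick (a M x y : ℝ) (ha : 0 < a) (hy : 0 < y) (h : ∀ N : ℕ, a * x ^ N ≤ M * y ^ N) :
    x ≤ y := by
  by_contra hlt
  push Not at hlt
  have h1 : 1 < x / y := by rwa [one_lt_div hy]
  obtain ⟨N, hN⟩ := pow_unbounded_of_one_lt (M / a) h1
  have h2 := h N
  rw [div_pow, div_lt_div_iff₀ ha (by positivity)] at hN
  linarith

/-- **The complex analysis lemma.** -/
theorem vanish (K : Set ℂ) (hK : IsClosed K) (w : ℂ) (hw : w ∈ K) (hacc : AccPt w (𝓟 K))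
    (d : ℝ) (hd : 0 < d) (g : ℂ → ℂ) (C : ℝ) (hC : 0 ≤ C)
    (hg : ∀ z ∈ closedBall w d, z ∉ K → DifferentiableAt ℂ g z)
    (hb : ∀ z ∈ closedBall w d, ∀ a ∈ K, ‖g z‖ ≤ C * ‖z - a‖)
    (z₀ : ℂ) (hz₀ : z₀ ∈ ball w (d / 4)) (hz₀K : z₀ ∉ K) : g z₀ = 0 := by
  classical
  by_contra hne
  have hgz : 0 < ‖g z₀‖ := norm_pos_iff.2 hne
  set M : ℝ := C * d with hM
  have hMb : ∀ z ∈ closedBall w d, ‖g z‖ ≤ M := by
    intro z hz
    rw [mem_closedBall, dist_eq_norm] at hz
    exact (hb z (by rwa [mem_closedBall, dist_eq_norm]) w hw).trans (by rw [hM]; gcongr)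
  have hz₀' : ‖z₀ - w‖ < d / 4 := by rwa [mem_ball, dist_eq_norm] at hz₀
  have hz₀cb : z₀ ∈ closedBall w d := by rw [mem_closedBall, dist_eq_norm]; linarith
  have hM0 : 0 < M := lt_of_lt_of_le hgz (hMb z₀ hz₀cb)
  obtain ⟨m, hm⟩ := exists_pow_lt_of_lt_one (show (0 : ℝ) < ‖g z₀‖ / M by positivity)
    (show (2 / 3 : ℝ) < 1 by norm_num)
  have hinf : (ball w (d / 4) ∩ K).Infinite := by
    intro hfin
    rw [accPt_iff_frequently] at hacc
    have hfin2 : ((ball w (d / 4) ∩ K) \ {w}).Finite := hfin.diff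
    have hopen : ((ball w (d / 4) ∩ K) \ {w})ᶜ ∈ 𝓝 w :=
      hfin2.isClosed.isOpen_compl.mem_nhds (by simp)
    obtain ⟨y, ⟨hyw, hyK⟩, hy1, hy2⟩ :=
      (hacc.and_eventually (Filter.inter_mem hopen (ball_mem_nhds w (by positivity :
        (0 : ℝ) < d / 4)))).exists
    exact hy1 ⟨⟨hy2, hyK⟩, hyw⟩
  obtain ⟨s, hs, hcard⟩ := hinf.exists_subset_card_eq m
  set Q : ℂ → ℂ := fun z => ∏ a ∈ s, (z - a) with hQ
  have hsK : ∀ a ∈ s, a ∈ K := fun a ha => (hs ha).2
  have hsb : ∀ a ∈ s, ‖a - w‖ < d / 4 := fun a ha => by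
    have := (hs ha).1
    rwa [mem_ball, dist_eq_norm] at this
  obtain ⟨C', hC', hbC'⟩ := prod_bound (closedBall w d) g C M hC hMb s
    fun z hz a ha => hb z hz a (hsK a ha)
  have hQ0 : ∀ z, z ∉ K → Q z ≠ 0 := by
    intro z hz
    rw [hQ]
    simp only
    rw [Finset.prod_ne_zero_iff]
    intro a ha h0
    exact hz ((sub_eq_zero.1 h0) ▸ hsK a ha)
  have hQd : Differentiable ℂ Q := by
    rw [hQ]; fun_prop
  set ρ : ℝ := (3 * d / 4) ^ m with hρ
  have hρ0 : 0 < ρ := by positivity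
  have hQlow : ∀ z ∈ sphere w d, ρ ≤ ‖Q z‖ := by
    intro z hz
    rw [mem_sphere, dist_eq_norm] at hz
    rw [hQ]; simp only
    rw [norm_prod, hρ, ← hcard, ← Finset.prod_const]
    refine Finset.prod_le_prod (fun b _ => by positivity) fun b hb' => ?_
    have h2 := hsb b hb'
    have h3 : ‖z - w‖ ≤ ‖z - b‖ + ‖b - w‖ := by
      have : z - w = (z - b) + (b - w) := by ring
      rw [this]; exact norm_add_le _ _
    linarith
  have hQup : ‖Q z₀‖ ≤ (d / 2) ^ m := by
    rw [hQ]; simp only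
    rw [norm_prod, ← hcard, ← Finset.prod_const]
    refine Finset.prod_le_prod (fun b _ => by positivity) fun b hb' => ?_
    have h2 := hsb b hb'
    have h3 : ‖z₀ - b‖ ≤ ‖z₀ - w‖ + ‖b - w‖ := by
      have : z₀ - b = (z₀ - w) - (b - w) := by ring
      rw [this]; exact norm_sub_le _ _
    linarith
  have hgK : ∀ z ∈ closedBall w d, z ∈ K → g z = 0 := by
    intro z hz hzK
    have := hb z hz z hzK
    rw [sub_self, norm_zero, mul_zero] at this
    exact norm_le_zero_iff.1 this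
  have key : ∀ N : ℕ, ‖g z₀‖ * (‖g z₀‖ / ‖Q z₀‖) ^ N ≤ M * (M / ρ) ^ N := by
    intro N
    set h : ℂ → ℂ := fun z => g z * (g z / Q z) ^ N with hh
    have hhd : ∀ z ∈ closedBall w d, z ∉ K → DifferentiableAt ℂ h z := by
      intro z hz hzK
      exact (hg z hz hzK).mul (((hg z hz hzK).div (hQd z) (hQ0 z hzK)).pow N)
    have hhb : ∀ z ∈ closedBall w d, ‖h z‖ ≤ ‖g z‖ * C' ^ N := by
      intro z hz
      rw [hh]; simp only
      rw [norm_mul, norm_pow, norm_div]
      gcongr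
      exact div_le_of_le_mul₀ (norm_nonneg _) hC' (hbC' z hz)
    have hclW : closure (Kᶜ ∩ ball w d) ⊆ closedBall w d :=
      (closure_mono inter_subset_right).trans closure_ball_subset_closedBall
    have hdc : DiffContOnCl ℂ h (Kᶜ ∩ ball w d) := by
      refine ⟨fun z hz => (hhd z (ball_subset_closedBall hz.2) hz.1).differentiableWithinAt,
        fun z hz => ?_⟩
      have hzc := hclW hz
      by_cases hzK : z ∈ K
      · have hz0 : h z = 0 := by rw [hh]; simp only; rw [hgK z hzc hzK, zero_mul]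
        rw [ContinuousWithinAt, hz0, tendsto_zero_iff_norm_tendsto_zero]
        have h1 : Tendsto (fun y : ℂ => C * ‖y - z‖ * C' ^ N) (𝓝[closure (Kᶜ ∩ ball w d)] z)
            (𝓝 0) := by
          have : Continuous fun y : ℂ => C * ‖y - z‖ * C' ^ N := by fun_prop
          have h2 := this.tendsto z
          simp only [sub_self, norm_zero, mul_zero, zero_mul] at h2
          exact h2.mono_left nhdsWithin_le_nhds
        refine squeeze_zero' (Eventually.of_forall fun y => norm_nonneg _) ?_ h1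
        filter_upwards [self_mem_nhdsWithin] with y hy
        refine (hhb y (hclW hy)).trans ?_
        gcongr
        exact hb y (hclW hy) z hzK
      · exact (hhd z hzc hzK).continuousAt.continuousWithinAt
    have hmax := Complex.norm_le_of_forall_mem_frontier_norm_le
      (isBounded_ball.subset inter_subset_right) hdc (C := M * (M / ρ) ^ N) (fun y hy => by
        have hyc : y ∈ closedBall w d := hclW (frontier_subset_closure hy)
        by_cases hyK : y ∈ K
        · rw [hh]; simp only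
          rw [hgK y hyc hyK, zero_mul, norm_zero]
          positivity
        · have hys : y ∈ sphere w d := by
            rcases frontier_inter_subset _ _ hy with ⟨hy1, -⟩ | ⟨-, hy2⟩
            · exfalso
              rw [frontier_compl] at hy1
              exact hyK (hK.frontier_subset hy1)
            · exact frontier_ball_subset_sphere hy2
          rw [hh]; simp only
          rw [norm_mul, norm_pow, norm_div]
          have h1 := hMb y hyc
          have h2 := hQlow y hys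
          gcongr) (z := z₀) (subset_closure ⟨hz₀K, ball_subset_ball (by linarith) hz₀⟩)
    rw [hh] at hmax
    simp only at hmax
    rwa [norm_mul, norm_pow, norm_div] at hmax
  have h1 := root_trick _ _ _ _ hgz (by positivity) key
  have hQz : 0 < ‖Q z₀‖ := norm_pos_iff.2 (hQ0 z₀ hz₀K)
  rw [div_le_div_iff₀ hQz hρ0] at h1
  have h2 : ‖g z₀‖ * ρ ≤ M * (d / 2) ^ m := h1.trans (by gcongr)
  have h3 : (d / 2) ^ m = (2 / 3 : ℝ) ^ m * ρ := by
    rw [hρ, ← mul_pow]; congr 1; ring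
  rw [h3] at h2
  have h4 : ‖g z₀‖ ≤ M * (2 / 3 : ℝ) ^ m := by
    have : ‖g z₀‖ * ρ ≤ (M * (2 / 3 : ℝ) ^ m) * ρ := by linarith
    exact le_of_mul_le_mul_right this hρ0
  rw [lt_div_iff₀ hM0] at hm
  linarith

end Pool.Agent.U524.RO
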