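import Pool.Agent.U524.RO.Generic

set_option autoImplicit false

open Set Metric Topology Filter

namespace Pool.Agent.U524.RO

variable {X : Type*} [NormedAddCommGroup X] [NormedSpace ℂ X]

theorem pow_diff (T : X →L[ℂ] X) (u : X) (v : X →L[ℂ] ℂ) (x : X) (n : ℕ) :
    ∃ s : Polynomial ℂ, (∀ k, n ≤ k → s.coeff k = 0) ∧
      (T ^ n) x - (pert T u v ^ n) x = (Polynomial.aeval T s) u := by
  induction n with
  | zero =>
    refine ⟨0, fun k _ => by simp, ?_⟩
    simp
  | succ n ih =>
    obtain ⟨s, hs, h⟩ := ih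
    refine ⟨Polynomial.X * s - Polynomial.C (v ((pert T u v ^ n) x)), ?_, ?_⟩
    · intro k hk
      obtain ⟨j, rfl⟩ : ∃ j, k = j + 1 := ⟨k - 1, by omega⟩
      rw [Polynomial.coeff_sub, Polynomial.coeff_X_mul, hs j (by omega), Polynomial.coeff_C,
        if_neg (by omega), sub_zero]
    · have h1 : (T ^ (n + 1)) x = T ((T ^ n) x) := by rw [pow_succ']; rfl
      have h2 : (pert T u v ^ (n + 1)) x = pert T u v ((pert T u v ^ n) x) := by
        rw [pow_succ']; rfl
      have h4 : (Polynomial.aeval T (Polynomial.X * s - Polynomial.C (v ((pert T u v ^ n) x)))) u =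
          T ((Polynomial.aeval T s) u) - v ((pert T u v ^ n) x) • u := by
        rw [map_sub, map_mul, Polynomial.aeval_X, Polynomial.aeval_C,
          Algebra.algebraMap_eq_smul_one]
        rfl
      rw [h1, h2, pert_apply, h4, ← h, map_sub]
      abel

theorem poly_diff (T : X →L[ℂ] X) (u : X) (v : X →L[ℂ] ℂ) (x : X) (p : Polynomial ℂ) :
    ∃ s : Polynomial ℂ, (∀ k, p.natDegree ≤ k → s.coeff k = 0) ∧
      (Polynomial.aeval T p) x - (Polynomial.aeval (pert T u v) p) x =
        (Polynomial.aeval T s) u := by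
  choose s hs h using pow_diff T u v x
  refine ⟨∑ i ∈ Finset.range (p.natDegree + 1), p.coeff i • s i, ?_, ?_⟩
  · intro k hk
    rw [Polynomial.finset_sum_coeff]
    refine Finset.sum_eq_zero fun i hi => ?_
    rw [Finset.mem_range] at hi
    rw [Polynomial.coeff_smul, hs i k (by omega), smul_zero]
  · rw [Polynomial.aeval_eq_sum_range, Polynomial.aeval_eq_sum_range, map_sum]
    simp only [map_smul]
    have e1 : ∀ (f : ℕ → X →L[ℂ] X) (y : X),
        (∑ i ∈ Finset.range (p.natDegree + 1), p.coeff i • f i) y =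
        ∑ i ∈ Finset.range (p.natDegree + 1), p.coeff i • f i y := by
      intro f y
      rw [ContinuousLinearMap.sum_apply]
      rfl
    rw [e1, e1, e1, ← Finset.sum_sub_distrib]
    refine Finset.sum_congr rfl fun i _ => ?_
    rw [← smul_sub, h]

/-- Rank-one perturbations of operators that are not algebraic are not algebraic. -/
theorem nonAlgebraic_pert (T : X →L[ℂ] X) (u : X) (v : X →L[ℂ] ℂ) (hT : NonAlgebraic T) :
    NonAlgebraic (pert T u v) := by
  intro p hp
  by_contra hp0
  have h1 : ∀ x, ∃ s : Polynomial ℂ, (∀ k, p.natDegree ≤ k → s.coeff k = 0) ∧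
      (Polynomial.aeval T p) x = (Polynomial.aeval T s) u := by
    intro x
    obtain ⟨s, hs, h⟩ := poly_diff T u v x p
    refine ⟨s, hs, ?_⟩
    rw [hp] at h
    rw [← h]
    simp
  obtain ⟨s₀, hs₀, h₀⟩ := h1 u
  have hr : p - s₀ ≠ 0 := by
    intro h0
    have h2 := congrArg (fun q => Polynomial.coeff q p.natDegree) h0
    simp only [Polynomial.coeff_sub, Polynomial.coeff_zero, hs₀ _ le_rfl, sub_zero] at h2
    exact hp0 (Polynomial.leadingCoeff_eq_zero.1 h2)
  have hru : (Polynomial.aeval T (p - s₀)) u = 0 := by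
    rw [map_sub, sub_apply, h₀, sub_self]
  have h3 : Polynomial.aeval T ((p - s₀) * p) = 0 := by
    ext x
    obtain ⟨s, -, h⟩ := h1 x
    have e1 : ∀ (A B : X →L[ℂ] X) (y : X), (A * B) y = A (B y) := fun _ _ _ => rfl
    rw [map_mul, e1, h, ← e1, ← map_mul, mul_comm, map_mul, e1, hru, map_zero]
    rfl
  exact mul_ne_zero hr hp0 (hT _ h3)

theorem nonAlgebraic_sum {ι : Type*} (T : X →L[ℂ] X) (hT : NonAlgebraic T)
    (w : ι → X × (X →L[ℂ] ℂ)) (s : Finset ι) :
    NonAlgebraic (T + ∑ i ∈ s, (w i).2.smulRight (w i).1) := by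
  classical
  induction s using Finset.induction_on with
  | empty => simpa using hT
  | insert a s ha ih =>
    rw [Finset.sum_insert ha]
    have h := nonAlgebraic_pert _ (w a).1 (w a).2 ih
    unfold pert at h
    have h2 : T + ((w a).2.smulRight (w a).1 + ∑ x ∈ s, (w x).2.smulRight (w x).1) =
        T + ∑ i ∈ s, (w i).2.smulRight (w i).1 + (w a).2.smulRight (w a).1 := by abel
    rw [h2]
    exact h

/-- splitting off the last coordinate -/
def lastHomeo (Y : Type*) [TopologicalSpace Y] (n : ℕ) :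
    (Fin (n + 1) → Y) ≃ₜ (Fin n → Y) × Y where
  toFun w := (fun i => w i.castSucc, w (Fin.last n))
  invFun q := Fin.snoc (α := fun _ => Y) q.1 q.2
  left_inv w := by
    ext i
    refine Fin.lastCases ?_ (fun i => ?_) i
    · simp
    · simp
  right_inv q := by
    ext i
    · simp
    · simp
  continuous_toFun := by fun_prop
  continuous_invFun := by
    exact Continuous.finSnoc (A := fun _ => Y) continuous_fst continuous_snd

variable [CompleteSpace X]

/-- **Generic perturbations of rank at most `n + 1`.** -/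
theorem residual_rank (T : X →L[ℂ] X) (hT : NonAlgebraic T) (n : ℕ) :
    ∀ᶠ w : Fin (n + 1) → X × (X →L[ℂ] ℂ) in residual _,
      ManyHyperinvariant (T + ∑ i, (w i).2.smulRight (w i).1) := by
  set P := Fin n → X × (X →L[ℂ] ℂ) with hP
  set S : P → (X →L[ℂ] X) := fun w => T + ∑ i, (w i).2.smulRight (w i).1 with hS
  have hSc : Continuous S := by
    rw [hS]
    refine continuous_const.add (continuous_finsetSum _ fun i _ => ?_)
    have h1 : Continuous fun w : P => (w i).2 := by fun_prop
    have h2 : Continuous fun w : P => (w i).1 := by fun_prop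
    exact (ContinuousLinearMap.smulRightL ℂ X X).isBoundedBilinearMap.continuous.comp
      (h1.prodMk h2)
  have h1 := residual_family S hSc (fun p => nonAlgebraic_sum T hT p Finset.univ)
  have h2 := tendsto_residual_of_isOpenMap (lastHomeo (X × (X →L[ℂ] ℂ)) n).continuous
    (lastHomeo (X × (X →L[ℂ] ℂ)) n).isOpenMap
  filter_upwards [h2.eventually h1] with w hw
  have h3 := many_hyperinvariant _ _ _ hw
  have h4 : pert (S (lastHomeo (X × (X →L[ℂ] ℂ)) n w).1)
      (lastHomeo (X × (X →L[ℂ] ℂ)) n w).2.1 (lastHomeo (X × (X →L[ℂ] ℂ)) n w).2.2 =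
      T + ∑ i, (w i).2.smulRight (w i).1 := by
    rw [Fin.sum_univ_castSucc, ← add_assoc]
    rfl
  rw [h4] at h3
  exact h3

end Pool.Agent.U524.RO
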