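import Pool.Agent.U524.RO.Local

set_option autoImplicit false

open Set Metric Topology Filter

namespace Pool.Agent.U524.RO

variable {X : Type*} [NormedAddCommGroup X] [NormedSpace ℂ X]

/-- `V` is hyperinvariant for `A`: it is invariant under every bounded operator that commutes
with `A` (in particular under `A` itself). -/
def HyperInv (A : X →L[ℂ] X) (V : Submodule ℂ X) : Prop :=
  ∀ S : X →L[ℂ] X, S * A = A * S → ∀ x ∈ V, S x ∈ V

/-- `z` is an eigenvalue of `A` with a one-dimensional eigenspace `V` that has a closed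
complement `W`, both hyperinvariant for `A`. -/
def SimpleEigenvalue (A : X →L[ℂ] X) (z : ℂ) : Prop :=
  ∃ V W : Submodule ℂ X, IsClosed (V : Set X) ∧ IsClosed (W : Set X) ∧ IsCompl V W ∧
    Module.finrank ℂ V = 1 ∧ (∀ y, y ∈ V ↔ A y = z • y) ∧ HyperInv A V ∧ HyperInv A W

/-- The lattice of closed hyperinvariant subspaces of `A` contains an order copy of the power
set of `ℕ`, in which infinite sets give infinite-dimensional subspaces and sets with infinite
complement give subspaces of infinite codimension. -/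
def ManyHyperinvariant (A : X →L[ℂ] X) : Prop :=
  ∃ V : Set ℕ → Submodule ℂ X,
    (∀ s, IsClosed (V s : Set X) ∧ HyperInv A (V s)) ∧
    (∀ s t, V s ≤ V t ↔ s ⊆ t) ∧
    (∀ s, s.Infinite → ¬ FiniteDimensional ℂ (V s)) ∧
    (∀ s, sᶜ.Infinite → ¬ FiniteDimensional ℂ (X ⧸ V s))

/-- The eigenvector and the eigenfunctional at a simple point. -/
theorem simple_pair (T : X →L[ℂ] X) (u : X) (v : X →L[ℂ] ℂ) (z : ℂ) (h : Simp T u v z) :
    ∃ (x : X) (f : X →L[ℂ] ℂ), f x = 1 ∧ pert T u v x = z • x ∧
      (∀ y, f (pert T u v y) = z * f y) ∧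
      (∀ y, pert T u v y = z • y → y = f y • x) ∧
      ∀ S : X →L[ℂ] X, S * pert T u v = pert T u v * S →
        S x = f (S x) • x ∧ ∀ y, f (S y) = f (S x) * f y := by
  obtain ⟨hz, hF, hF2⟩ := h
  set x : X := resolvent T z u with hx
  set f₀ : X →L[ℂ] ℂ := v.comp (resolvent T z) with hf₀
  have hf₀x : f₀ x ≠ 0 := hF2
  have hFv : v x = 1 := hF
  have hAx : pert T u v x = z • x := by
    rw [pert_apply, hFv, one_smul]
    have h1 := res_mul T hz u
    rw [sub_eq_iff_eq_add] at h1
    rw [hx, h1, add_comm]
  have hAy : ∀ y, pert T u v y = z • y → y = v y • x := by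
    intro y hy
    rw [pert_apply] at hy
    have h1 : z • y - T y = v y • u := by rw [← hy]; abel
    have h2 := mul_res T hz y
    rw [h1, map_smul] at h2
    exact h2.symm
  have hfA : ∀ y, f₀ (pert T u v y) = z * f₀ y := by
    intro y
    have h1 : f₀ (z • y - T y) = v y := by
      rw [hf₀]; simp only [ContinuousLinearMap.comp_apply]
      rw [mul_res T hz]
    have h2 : f₀ u = 1 := hF
    rw [pert_apply, map_add, map_smul, h2, smul_eq_mul, mul_one]
    rw [map_sub, map_smul, smul_eq_mul] at h1
    rw [← h1]; ring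
  refine ⟨x, (f₀ x)⁻¹ • f₀, ?_, hAx, ?_, ?_, ?_⟩
  · rw [FunLike.coe_smul, Pi.smul_apply, smul_eq_mul, inv_mul_cancel₀ hf₀x]
  · intro y
    rw [FunLike.coe_smul, Pi.smul_apply, Pi.smul_apply, smul_eq_mul, smul_eq_mul, hfA]
    ring
  · intro y hy
    have h1 := hAy y hy
    have h2 : f₀ y = v y * f₀ x := by
      conv_lhs => rw [h1]
      rw [map_smul, smul_eq_mul]
    rw [FunLike.coe_smul, Pi.smul_apply, smul_eq_mul, h2]
    have h3 : (f₀ x)⁻¹ * (v y * f₀ x) = v y := by field_simp
    rw [h3]
    exact h1
  · intro S hS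
    have hSA : ∀ y, S (pert T u v y) = pert T u v (S y) := fun y =>
      congrArg (fun B : X →L[ℂ] X => B y) hS
    have h1 : pert T u v (S x) = z • S x := by rw [← hSA, hAx, map_smul]
    have h2 := hAy _ h1
    have h3 : f₀ (S x) = v (S x) * f₀ x := by
      conv_lhs => rw [h2]
      rw [map_smul, smul_eq_mul]
    have h4 : (f₀ x)⁻¹ * f₀ (S x) = v (S x) := by
      rw [h3]; field_simp
    have h5 : ∀ y, f₀ (S y) = f₀ (S u) * f₀ y := by
      intro y
      have h6 : ∀ y, f₀ (S (z • y - T y)) = v y * f₀ (S u) := by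
        intro y
        have h7 : f₀ (S (pert T u v y)) = z * f₀ (S y) := by rw [hSA, hfA]
        rw [pert_apply, map_add, map_add, map_smul, map_smul, smul_eq_mul] at h7
        rw [map_sub, map_sub, map_smul, map_smul, smul_eq_mul, ← h7]
        ring
      have h8 := h6 (resolvent T z y)
      rw [res_mul T hz] at h8
      rw [h8, mul_comm]
      rfl
    have h9 : f₀ (S u) = v (S x) := by
      have h10 := h5 x
      rw [h3] at h10
      exact (mul_right_cancel₀ hf₀x h10).symm
    constructor
    · rw [FunLike.coe_smul, Pi.smul_apply, smul_eq_mul, h4]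
      exact h2
    · intro y
      rw [FunLike.coe_smul, Pi.smul_apply, Pi.smul_apply, Pi.smul_apply, smul_eq_mul,
        smul_eq_mul, smul_eq_mul, h4, h5 y, h9]
      ring

theorem simple_eigenvalue (T : X →L[ℂ] X) (u : X) (v : X →L[ℂ] ℂ) (z : ℂ) (h : Simp T u v z) :
    SimpleEigenvalue (pert T u v) z := by
  obtain ⟨x, f, hfx, hAx, hfA, huniq, hS⟩ := simple_pair T u v z h
  have hx : x ≠ 0 := by
    intro h0
    rw [h0, map_zero] at hfx
    exact zero_ne_one hfx
  refine ⟨Submodule.span ℂ {x}, LinearMap.ker f.toLinearMap, ?_, ?_, ?_, ?_, ?_, ?_, ?_⟩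
  · exact Submodule.closed_of_finiteDimensional _
  · exact f.isClosed_ker
  · constructor
    · rw [Submodule.disjoint_def]
      intro y hy hyf
      obtain ⟨c, rfl⟩ := Submodule.mem_span_singleton.1 hy
      have h1 : f (c • x) = 0 := hyf
      rw [map_smul, hfx, smul_eq_mul, mul_one] at h1
      rw [h1, zero_smul]
    · rw [codisjoint_iff, eq_top_iff]
      intro y _
      rw [Submodule.mem_sup]
      refine ⟨f y • x, Submodule.smul_mem _ _ (Submodule.mem_span_singleton_self x),
        y - f y • x, ?_, by abel⟩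
      show f (y - f y • x) = 0
      rw [map_sub, map_smul, hfx, smul_eq_mul, mul_one, sub_self]
  · exact finrank_span_singleton hx
  · intro y
    constructor
    · intro hy
      obtain ⟨c, rfl⟩ := Submodule.mem_span_singleton.1 hy
      rw [map_smul, hAx, smul_comm]
    · intro hy
      rw [huniq y hy]
      exact Submodule.smul_mem _ _ (Submodule.mem_span_singleton_self x)
  · intro S hSc y hy
    obtain ⟨c, rfl⟩ := Submodule.mem_span_singleton.1 hy
    rw [map_smul, (hS S hSc).1]
    exact Submodule.smul_mem _ _ (Submodule.smul_mem _ _ (Submodule.mem_span_singleton_self x))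
  · intro S hSc y hy
    have hy' : f y = 0 := hy
    show f (S y) = 0
    rw [(hS S hSc).2 y, hy', mul_zero]

theorem li_of_biorth {M : Type*} [AddCommGroup M] [Module ℂ M] {ι : Type*} (y : ι → M)
    (ψ : ι → (M →ₗ[ℂ] ℂ)) (h1 : ∀ j, ψ j (y j) = 1) (h0 : ∀ j k, j ≠ k → ψ j (y k) = 0) :
    LinearIndependent ℂ y := by
  classical
  rw [linearIndependent_iff']
  intro s g hg i hi
  have h2 := congrArg (ψ i) hg
  rw [map_sum, map_zero, Finset.sum_eq_single i] at h2
  · rw [map_smul, h1, smul_eq_mul, mul_one] at h2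
    exact h2
  · intro j _ hj
    rw [map_smul, h0 i j (Ne.symm hj), smul_zero]
  · intro h3; exact absurd hi h3

theorem not_fd {M : Type*} [AddCommGroup M] [Module ℂ M] {ι : Type*} [Infinite ι] (y : ι → M)
    (h : LinearIndependent ℂ y) : ¬ FiniteDimensional ℂ M := by
  intro hfd
  have := h.finite_of_isNoetherian
  exact not_finite ι

/-- **Many hyperinvariant subspaces from infinitely many simple eigenvalues.** -/
theorem many_hyperinvariant (T : X →L[ℂ] X) (u : X) (v : X →L[ℂ] ℂ)
    (hinf : {z | Simp T u v z}.Infinite) : ManyHyperinvariant (pert T u v) := by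
  classical
  set e := hinf.natEmbedding with he
  set lam : ℕ → ℂ := fun n => (e n : ℂ) with hlam
  have hinj : ∀ m n, lam m = lam n → m = n := fun m n hmn => e.injective (Subtype.ext hmn)
  have hsimp : ∀ n, Simp T u v (lam n) := fun n => (e n).2
  have hpair := fun n => simple_pair T u v (lam n) (hsimp n)
  choose x f hfx hAx hfA huniq hS using hpair
  have h0 : ∀ m n, m ≠ n → f m (x n) = 0 := by
    intro m n hmn
    have h1 := hfA m (x n)
    rw [hAx n, map_smul, smul_eq_mul] at h1
    have h2 : (lam n - lam m) * f m (x n) = 0 := by rw [sub_mul, h1, sub_self]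
    rcases mul_eq_zero.1 h2 with h3 | h3
    · exact absurd (hinj _ _ (sub_eq_zero.1 h3)).symm hmn
    · exact h3
  set V : Set ℕ → Submodule ℂ X := fun s =>
    (Submodule.span ℂ (x '' s)).topologicalClosure with hV
  have hmem : ∀ s n, n ∈ s → x n ∈ V s := fun s n hn =>
    Submodule.le_topologicalClosure _ (Submodule.subset_span (mem_image_of_mem x hn))
  have hker : ∀ s n, n ∉ s → ∀ y ∈ V s, f n y = 0 := by
    intro s n hn
    have h1 : V s ≤ LinearMap.ker (f n).toLinearMap := by
      refine Submodule.topologicalClosure_minimal _ ?_ (f n).isClosed_ker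
      rw [Submodule.span_le]
      rintro _ ⟨k, hk, rfl⟩
      exact h0 n k (fun h => hn (h ▸ hk))
    exact fun y hy => h1 hy
  refine ⟨V, fun s => ⟨Submodule.isClosed_topologicalClosure _, ?_⟩, ?_, ?_, ?_⟩
  · intro S hSc y hy
    have h1 : ∀ y ∈ Submodule.span ℂ (x '' s), S y ∈ Submodule.span ℂ (x '' s) := by
      intro y hy
      induction hy using Submodule.span_induction with
      | mem y hy =>
        obtain ⟨k, hk, rfl⟩ := hy
        rw [(hS k S hSc).1]
        exact Submodule.smul_mem _ _ (Submodule.subset_span (mem_image_of_mem x hk))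
      | zero => rw [map_zero]; exact Submodule.zero_mem _
      | add a b _ _ ha hb => rw [map_add]; exact Submodule.add_mem _ ha hb
      | smul c a _ ha => rw [map_smul]; exact Submodule.smul_mem _ _ ha
    exact map_mem_closure S.continuous hy h1
  · intro s t
    constructor
    · intro hle n hn
      by_contra hnt
      have h1 := hker t n hnt (x n) (hle (hmem s n hn))
      rw [hfx] at h1
      exact one_ne_zero h1
    · intro hst
      exact Submodule.topologicalClosure_mono (Submodule.span_mono (image_mono hst))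
  · intro s hs
    have := hs.to_subtype
    refine not_fd (ι := s) (fun n => (⟨x n, hmem s n n.2⟩ : V s)) ?_
    refine li_of_biorth _ (fun n => (f n).toLinearMap.comp (V s).subtype) ?_ ?_
    · intro j; exact hfx j
    · intro j k hjk; exact h0 j k (fun h => hjk (Subtype.ext h))
  · intro s hs
    have := hs.to_subtype
    refine not_fd (ι := (sᶜ : Set ℕ)) (fun n => (V s).mkQ (x n)) ?_
    refine li_of_biorth _ (fun n => (V s).liftQ (f n).toLinearMap (fun y hy =>
      hker s n n.2 y hy)) ?_ ?_
    · intro j
      rw [Submodule.mkQ_apply, Submodule.liftQ_apply]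
      exact hfx j
    · intro j k hjk
      rw [Submodule.mkQ_apply, Submodule.liftQ_apply]
      exact h0 j k (fun h => hjk (Subtype.ext h))

end Pool.Agent.U524.RO
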