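import Pool.Agent.U524.RO.Alg
import Pool.Agent.U524.RO.Half

set_option autoImplicit false

open Set Metric Topology Filter

namespace Pool.Agent.U524.RO

variable {X : Type*} [NormedAddCommGroup X] [NormedSpace ℂ X] [CompleteSpace X]

/-- density of the simple points, once points with value `1` are dense -/
theorem simple_near (T : X →L[ℂ] X) (N : Set ℂ) (u₀ : X) (v₀ : X →L[ℂ] ℂ)
    (h : ∀ ε : ℝ, 0 < ε → ∃ (u : X) (v : X →L[ℂ] ℂ), ‖u - u₀‖ < ε ∧ ‖v - v₀‖ < ε ∧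
      ∃ z ∈ N, z ∈ resolventSet ℂ T ∧ F T u v z = 1) (ε : ℝ) (hε : 0 < ε) :
    ∃ (u : X) (v : X →L[ℂ] ℂ), ‖u - u₀‖ < ε ∧ ‖v - v₀‖ < ε ∧ ∃ z ∈ N, Simp T u v z := by
  obtain ⟨u, v, hu, hv, z, hzN, hz, hF⟩ := h (ε / 2) (by positivity)
  obtain ⟨u', hu', hs⟩ := make_simple T u v z hz hF (ε / 2) (by positivity)
  refine ⟨u', v, ?_, by linarith, z, hzN, hs⟩
  calc ‖u' - u₀‖ = ‖(u' - u) + (u - u₀)‖ := by congr 1; abel
    _ ≤ ‖u' - u‖ + ‖u - u₀‖ := norm_add_le _ _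
    _ < ε := by linarith

/-- The open sets. -/
def GN (T : X →L[ℂ] X) (N : Set ℂ) : Set (X × (X →L[ℂ] ℂ)) :=
  {q | ∃ z ∈ N, Simp T q.1 q.2 z}

section family

variable {P : Type*} [TopologicalSpace P]

def GP (T : P → (X →L[ℂ] X)) (N : Set ℂ) : Set (P × X × (X →L[ℂ] ℂ)) :=
  {q | ∃ z ∈ N, Simp (T q.1) q.2.1 q.2.2 z}

theorem GP_open (T : P → (X →L[ℂ] X)) (hT : Continuous T) (N : Set ℂ) (hN : IsOpen N) :
    IsOpen (GP T N) := by
  rw [isOpen_iff_mem_nhds]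
  rintro q ⟨z, hzN, hz⟩
  exact stab_simple T hT q z hz N (hN.mem_nhds hzN)

/-- the points with at least `n` simple eigenvalues -/
def HP (T : P → (X →L[ℂ] X)) (n : ℕ) : Set (P × X × (X →L[ℂ] ℂ)) :=
  {q | ∃ s : Finset ℂ, s.card = n ∧ ∀ z ∈ s, Simp (T q.1) q.2.1 q.2.2 z}

theorem HP_open (T : P → (X →L[ℂ] X)) (hT : Continuous T) (n : ℕ) : IsOpen (HP T n) := by
  classical
  rw [isOpen_iff_mem_nhds]
  rintro q ⟨s, hcard, hs⟩
  -- separation
  obtain ⟨U, hU, hdisj⟩ := s.finite_toSet.t2_separation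
  have h1 : ∀ z ∈ s, ∀ᶠ q' in 𝓝 q, ∃ y ∈ U z, Simp (T q'.1) q'.2.1 q'.2.2 y := fun z hz =>
    stab_simple T hT q z (hs z hz) (U z) ((hU z).2.mem_nhds (hU z).1)
  rw [← Finset.eventually_all] at h1
  filter_upwards [h1] with q' hq'
  choose! y hyU hy using hq'
  refine ⟨s.image y, ?_, ?_⟩
  · rw [Finset.card_image_of_injOn, hcard]
    intro a ha b hb hab
    by_contra hne
    have h2 := hdisj ha hb hne
    exact Set.disjoint_left.1 h2 (hyU a ha) (by
      have : y a = y b := hab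
      rw [this]; exact hyU b hb)
  · intro z hz
    obtain ⟨a, ha, rfl⟩ := Finset.mem_image.1 hz
    exact hy a ha

end family

theorem GN_open (T : X →L[ℂ] X) (N : Set ℂ) (hN : IsOpen N) : IsOpen (GN T N) := by
  have h1 := GP_open (P := Unit) (fun _ => T) continuous_const N hN
  have h2 : Continuous fun q : X × (X →L[ℂ] ℂ) => ((), q) := by fun_prop
  exact h1.preimage h2

theorem dense_of_near (G : Set (X × (X →L[ℂ] ℂ)))
    (h : ∀ (u₀ : X) (v₀ : X →L[ℂ] ℂ) (ε : ℝ), 0 < ε → ∃ (u : X) (v : X →L[ℂ] ℂ),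
      ‖u - u₀‖ < ε ∧ ‖v - v₀‖ < ε ∧ (u, v) ∈ G) : Dense G := by
  intro q
  rw [Metric.mem_closure_iff]
  intro ε hε
  obtain ⟨u, v, hu, hv, hG⟩ := h q.1 q.2 ε hε
  refine ⟨(u, v), hG, ?_⟩
  rw [dist_comm, Prod.dist_eq, max_lt_iff, dist_eq_norm, dist_eq_norm]
  exact ⟨hu, hv⟩

theorem GN_dense (T : X →L[ℂ] X) (N : Set ℂ) (w : ℂ) (hN : N ∈ 𝓝 w)
    (hw : w ∈ frontier (spectrum ℂ T)) (hp : ¬ IsPole T w) : Dense (GN T N) :=
  dense_of_near _ fun u₀ v₀ ε hε => simple_near T N u₀ v₀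
    (fun ε hε => local_density T w hw hp N hN u₀ v₀ ε hε) ε hε

/-- **Accumulation at every boundary point that is not a pole.** -/
theorem residual_accumulate (T : X →L[ℂ] X) :
    ∀ᶠ q : X × (X →L[ℂ] ℂ) in residual _, ∀ w ∈ frontier (spectrum ℂ T), ¬ IsPole T w →
      ∀ N ∈ 𝓝 w, ∃ z ∈ N, Simp T q.1 q.2 z := by
  have h1 : ∀ N ∈ TopologicalSpace.countableBasis ℂ,
      ∀ᶠ q : X × (X →L[ℂ] ℂ) in residual _,
        (∃ w ∈ N, w ∈ frontier (spectrum ℂ T) ∧ ¬ IsPole T w) → q ∈ GN T N := by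
    intro N hN
    by_cases h : ∃ w ∈ N, w ∈ frontier (spectrum ℂ T) ∧ ¬ IsPole T w
    · obtain ⟨w, hwN, hw, hp⟩ := h
      have hNo := TopologicalSpace.isOpen_of_mem_countableBasis hN
      have h2 := residual_of_dense_open (GN_open T N hNo)
        (GN_dense T N w (hNo.mem_nhds hwN) hw hp)
      filter_upwards [h2] with q hq _
      exact hq
    · exact Eventually.of_forall fun q hq => absurd hq h
  rw [← eventually_countable_ball (TopologicalSpace.countable_countableBasis ℂ)] at h1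
  filter_upwards [h1] with q hq w hw hp N hN
  obtain ⟨N', hN', hwN', hsub⟩ :=
    (TopologicalSpace.isBasis_countableBasis ℂ).mem_nhds_iff.1 hN
  obtain ⟨z, hz, hs⟩ := hq N' hN' ⟨w, hwN', hw, hp⟩
  exact ⟨z, hsub hz, hs⟩

/-- `T` is not annihilated by a nonzero polynomial. -/
def NonAlgebraic (T : X →L[ℂ] X) : Prop :=
  ∀ p : Polynomial ℂ, Polynomial.aeval T p = 0 → p = 0

theorem residual_infinite (T : X →L[ℂ] X) (hT : NonAlgebraic T) :
    ∀ᶠ q : X × (X →L[ℂ] ℂ) in residual _, {z | Simp T q.1 q.2 z}.Infinite := by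
  have hnt : Nontrivial X := by
    by_contra hcon
    rw [not_nontrivial_iff_subsingleton] at hcon
    have : (1 : Polynomial ℂ) = 0 := hT 1 (Subsingleton.elim _ _)
    exact one_ne_zero this
  have h1 : ∃ w ∈ frontier (spectrum ℂ T), ¬ IsPole T w := by
    by_contra hcon
    push Not at hcon
    obtain ⟨p, hp, hp0⟩ := algebraic_of_poles T hcon
    exact hp (hT p hp0)
  obtain ⟨w, hw, hp⟩ := h1
  filter_upwards [residual_accumulate T] with q hq
  have hwK : w ∈ spectrum ℂ T := (spectrum.isClosed T).frontier_subset hw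
  intro hfin
  have h2 : w ∉ {z | Simp T q.1 q.2 z} := fun h => hwK h.1
  have h3 : {z | Simp T q.1 q.2 z}ᶜ ∈ 𝓝 w := hfin.isClosed.isOpen_compl.mem_nhds h2
  obtain ⟨z, hz1, hz2⟩ := hq w hw hp _ h3
  exact hz1 hz2

section family

variable {P : Type*} [TopologicalSpace P]

theorem dense_of_fiber (G : Set (P × X × (X →L[ℂ] ℂ)))
    (h : ∀ p : P, Dense {q : X × (X →L[ℂ] ℂ) | (p, q) ∈ G}) : Dense G := by
  rintro ⟨p, q⟩
  have h1 : q ∈ closure {q : X × (X →L[ℂ] ℂ) | (p, q) ∈ G} := h p q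
  have h2 : Continuous fun q : X × (X →L[ℂ] ℂ) => (p, q) := by fun_prop
  exact map_mem_closure h2 h1 fun _ ha => ha

theorem HP_dense (T : P → (X →L[ℂ] X)) (hT : ∀ p, NonAlgebraic (T p)) (n : ℕ) :
    Dense (HP T n) := by
  refine dense_of_fiber _ fun p => ?_
  refine dense_of_mem_residual ?_
  filter_upwards [residual_infinite (T p) (hT p)] with q hq
  obtain ⟨s, hs, hcard⟩ := hq.exists_subset_card_eq n
  exact ⟨s, hcard, fun z hz => hs hz⟩

theorem residual_family (T : P → (X →L[ℂ] X)) (hTc : Continuous T)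
    (hT : ∀ p, NonAlgebraic (T p)) :
    ∀ᶠ q : P × X × (X →L[ℂ] ℂ) in residual _, {z | Simp (T q.1) q.2.1 q.2.2 z}.Infinite := by
  have h1 : ∀ n : ℕ, ∀ᶠ q : P × X × (X →L[ℂ] ℂ) in residual _, q ∈ HP T n := fun n =>
    residual_of_dense_open (HP_open T hTc n) (HP_dense T hT n)
  rw [← eventually_countable_forall] at h1
  filter_upwards [h1] with q hq hfin
  obtain ⟨s, hcard, hs⟩ := hq (hfin.toFinset.card + 1)
  have h2 : s ⊆ hfin.toFinset := fun z hz => hfin.mem_toFinset.2 (hs z hz)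
  have h3 := Finset.card_le_card h2
  omega

/-- Families of arbitrary operators: the open dense set with one simple eigenvalue. -/
theorem GP_dense [Nontrivial X] (T : P → (X →L[ℂ] X)) : Dense (GP T univ) := by
  refine dense_of_fiber _ fun p => ?_
  refine dense_of_near _ fun u₁ v₁ ε hε => ?_
  refine simple_near (T p) univ u₁ v₁ (fun ε hε => ?_) ε hε
  obtain ⟨u₀, v₀, hu₀, hv₀, h0⟩ := pairing_dense u₁ v₁ (ε / 2) (by positivity)
  obtain ⟨u, v, hu, hv, z, hz, hF⟩ := density (T p) u₀ v₀ h0 (ε / 2) (by positivity)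
  refine ⟨u, v, ?_, ?_, z, mem_univ _, Om_subset _ hz, hF⟩
  · calc ‖u - u₁‖ = ‖(u - u₀) + (u₀ - u₁)‖ := by congr 1; abel
      _ ≤ ‖u - u₀‖ + ‖u₀ - u₁‖ := norm_add_le _ _
      _ < ε := by linarith
  · calc ‖v - v₁‖ = ‖(v - v₀) + (v₀ - v₁)‖ := by congr 1; abel
      _ ≤ ‖v - v₀‖ + ‖v₀ - v₁‖ := norm_add_le _ _
      _ < ε := by linarith

end family

/-- Restriction of an open dense set to the lines `c ↦ (c u, v)`. -/
theorem lines (G : Set (X × (X →L[ℂ] ℂ))) (hGo : IsOpen G) (hGd : Dense G) :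
    ∀ᶠ q : X × (X →L[ℂ] ℂ) in residual _,
      {c : ℂ | (c • q.1, q.2) ∈ G} ∈ residual ℂ := by
  obtain ⟨S, hSc, hSd⟩ := TopologicalSpace.exists_countable_dense ℂ
  have hSd' : Dense (S \ {0}) := hSd.sdiff_singleton 0
  have hSc' : (S \ {(0 : ℂ)}).Countable := hSc.mono sdiff_subset
  have h1 : ∀ c ∈ S \ {(0 : ℂ)}, ∀ᶠ q : X × (X →L[ℂ] ℂ) in residual _, (c • q.1, q.2) ∈ G := by
    intro c hc
    have hc0 : c ≠ 0 := hc.2
    set φ : (X × (X →L[ℂ] ℂ)) ≃ₜ (X × (X →L[ℂ] ℂ)) :=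
      (Homeomorph.smulOfNeZero c hc0).prodCongr (Homeomorph.refl _) with hφ
    exact residual_of_dense_open (hGo.preimage φ.continuous) (hGd.preimage φ.isOpenMap)
  rw [← eventually_countable_ball hSc'] at h1
  filter_upwards [h1] with q hq
  refine residual_of_dense_open ?_ (hSd'.mono fun c hc => hq c hc)
  have : Continuous fun c : ℂ => (c • q.1, q.2) := by fun_prop
  exact hGo.preimage this

theorem residual_lines (T : X →L[ℂ] X) (hT : NonAlgebraic T) :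
    ∀ᶠ q : X × (X →L[ℂ] ℂ) in residual _, ∀ᶠ c : ℂ in residual ℂ,
      {z | Simp T (c • q.1) q.2 z}.Infinite := by
  have h1 : ∀ n : ℕ, ∀ᶠ q : X × (X →L[ℂ] ℂ) in residual _,
      {c : ℂ | (c • q.1, q.2) ∈ {q : X × (X →L[ℂ] ℂ) | ((), q) ∈ HP (P := Unit) (fun _ => T) n}} ∈
        residual ℂ := by
    intro n
    refine lines _ ?_ ?_
    · have h2 : Continuous fun q : X × (X →L[ℂ] ℂ) => ((), q) := by fun_prop
      exact (HP_open (P := Unit) (fun _ => T) continuous_const n).preimage h2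
    · refine dense_of_mem_residual ?_
      filter_upwards [residual_infinite T hT] with q hq
      obtain ⟨s, hs, hcard⟩ := hq.exists_subset_card_eq n
      exact ⟨s, hcard, fun z hz => hs hz⟩
  rw [← eventually_countable_forall] at h1
  filter_upwards [h1] with q hq
  have hq' : ∀ᶠ c : ℂ in residual ℂ, ∀ n : ℕ,
      ((), (c • q.1, q.2)) ∈ HP (P := Unit) (fun _ => T) n := eventually_countable_forall.2 hq
  filter_upwards [hq'] with c hc hfin
  obtain ⟨s, hcard, hs⟩ := hc (hfin.toFinset.card + 1)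
  have h2 : s ⊆ hfin.toFinset := fun z hz => hfin.mem_toFinset.2 (hs z hz)
  have h3 := Finset.card_le_card h2
  omega

end Pool.Agent.U524.RO
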