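import Pool.Agent.U524.RO.Stab
import Pool.Agent.U524.RO.CA

set_option autoImplicit false

open Set Metric Topology Filter

namespace Pool.Agent.U524.RO

variable {X : Type*} [NormedAddCommGroup X] [NormedSpace ℂ X]

/-- the function `v ((z - T)⁻² u) = - d/dz v ((z - T)⁻¹ u)` -/
noncomputable def F2 (T : X →L[ℂ] X) (u : X) (v : X →L[ℂ] ℂ) (z : ℂ) : ℂ :=
  v (resolvent T z (resolvent T z u))

/-- `z` is a simple solution of `v ((z - T)⁻¹ u) = 1` outside the spectrum of `T`. -/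
def Simp (T : X →L[ℂ] X) (u : X) (v : X →L[ℂ] ℂ) (z : ℂ) : Prop :=
  z ∈ resolventSet ℂ T ∧ F T u v z = 1 ∧ F2 T u v z ≠ 0

theorem make_simple (T : X →L[ℂ] X) (u : X) (v : X →L[ℂ] ℂ) (z : ℂ)
    (hz : z ∈ resolventSet ℂ T) (hF : F T u v z = 1) (ε : ℝ) (hε : 0 < ε) :
    ∃ u' : X, ‖u' - u‖ < ε ∧ Simp T u' v z := by
  by_cases h2 : F2 T u v z = 0
  · -- choose `y` with `F2 y ≠ 0`
    have hy : ∃ y : X, F2 T y v z ≠ 0 := by
      by_contra hcon
      push Not at hcon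
      have h3 := hcon (z • (z • u - T u) - T (z • u - T u))
      unfold F2 at h3
      rw [mul_res T hz, mul_res T hz] at h3
      have h4 := hcon (z • u - T u)
      unfold F2 at h4
      rw [mul_res T hz] at h4
      unfold F at hF
      rw [h4] at hF
      exact zero_ne_one hF
    obtain ⟨y, hy⟩ := hy
    set u' : X := y - F T y v z • u with hu'
    have hF1 : F T u' v z = 0 := by
      simp only [hu', F, map_sub, map_smul, smul_eq_mul]
      unfold F at hF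
      rw [hF]; ring
    have hF2 : F2 T u' v z = F2 T y v z := by
      simp only [hu', F2, map_sub, map_smul, smul_eq_mul]
      unfold F2 at h2
      rw [h2]; ring
    set a : ℝ := ε / (2 * (‖u'‖ + 1)) with ha
    have ha0 : 0 < a := by positivity
    refine ⟨u + (a : ℂ) • u', ?_, hz, ?_, ?_⟩
    · rw [add_sub_cancel_left, norm_smul, Complex.norm_real, Real.norm_of_nonneg ha0.le]
      have : a * (‖u'‖ + 1) = ε / 2 := by rw [ha]; field_simp
      nlinarith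
    · have : F T (u + (a : ℂ) • u') v z = F T u v z + a * F T u' v z := by
        simp only [F, map_add, map_smul, smul_eq_mul]
      rw [this, hF, hF1]; ring
    · have : F2 T (u + (a : ℂ) • u') v z = F2 T u v z + a * F2 T u' v z := by
        simp only [F2, map_add, map_smul, smul_eq_mul]
      rw [this, h2, hF2, zero_add]
      exact mul_ne_zero (by exact_mod_cast ha0.ne') hy
  · exact ⟨u, by simpa using hε, hz, hF, h2⟩

variable [CompleteSpace X]

theorem hasDerivAt_F (T : X →L[ℂ] X) (u : X) (v : X →L[ℂ] ℂ) {z : ℂ}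
    (hz : z ∈ resolventSet ℂ T) : HasDerivAt (F T u v) (-F2 T u v z) z := by
  have h1 := spectrum.hasDerivAt_resolvent_const_left hz
  have h2 : HasDerivAt (fun w => resolvent T w u) ((-resolvent T z ^ 2) u) z := by
    have := h1.clm_apply (hasDerivAt_const z u)
    simpa using this
  have h3 := v.hasFDerivAt.comp_hasDerivAt z h2
  have h4 : v ((-resolvent T z ^ 2) u) = -F2 T u v z := by
    unfold F2
    rw [neg_apply, map_neg, sq]
    rfl
  rw [h4] at h3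
  exact h3

theorem not_eventually_one (T : X →L[ℂ] X) (u : X) (v : X →L[ℂ] ℂ) {z : ℂ}
    (h : Simp T u v z) : ¬ ∀ᶠ w in 𝓝 z, F T u v w = 1 := by
  intro hev
  have h1 := hasDerivAt_F T u v h.1
  have h2 : HasDerivAt (F T u v) 0 z := by
    have h3 : F T u v =ᶠ[𝓝 z] fun _ => (1 : ℂ) := hev
    exact (hasDerivAt_const z (1 : ℂ)).congr_of_eventuallyEq h3
  have h3 := h1.unique h2
  exact h.2.2 (neg_eq_zero.1 h3)

section family

variable {P : Type*} [TopologicalSpace P]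

theorem F2_continuousAt (T : P → (X →L[ℂ] X)) (hT : Continuous T) (q : P × X × (X →L[ℂ] ℂ))
    (z : ℂ) (hz : z ∈ resolventSet ℂ (T q.1)) :
    ContinuousAt (fun w : (P × X × (X →L[ℂ] ℂ)) × ℂ => F2 (T w.1.1) w.1.2.1 w.1.2.2 w.2)
      (q, z) := by
  have h1 : ContinuousAt (fun w : (P × X × (X →L[ℂ] ℂ)) × ℂ => resolvent (T w.1.1) w.2) (q, z) := by
    have h2 : ContinuousAt (fun w : (P × X × (X →L[ℂ] ℂ)) × ℂ => ((w.1.1, w.2) : P × ℂ)) (q, z) := by
      fun_prop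
    have h5 : Tendsto (fun q : P × ℂ => resolvent (T q.1) q.2) (𝓝 (q.1, z))
        (𝓝 (resolvent (T q.1) z)) := res_continuousAt T hT q.1 z hz
    exact h5.comp h2.tendsto
  have h3 : ContinuousAt (fun w : (P × X × (X →L[ℂ] ℂ)) × ℂ => w.1.2.1) (q, z) := by fun_prop
  have h4 : ContinuousAt (fun w : (P × X × (X →L[ℂ] ℂ)) × ℂ => w.1.2.2) (q, z) := by fun_prop
  exact h4.clm_apply (h1.clm_apply (h1.clm_apply h3))

theorem stab_simple (T : P → (X →L[ℂ] X)) (hT : Continuous T) (q₀ : P × X × (X →L[ℂ] ℂ))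
    (z₀ : ℂ) (h : Simp (T q₀.1) q₀.2.1 q₀.2.2 z₀) (N : Set ℂ) (hN : N ∈ 𝓝 z₀) :
    ∀ᶠ q in 𝓝 q₀, ∃ z ∈ N, Simp (T q.1) q.2.1 q.2.2 z := by
  have h1 : ∀ᶠ w : (P × X × (X →L[ℂ] ℂ)) × ℂ in 𝓝 (q₀, z₀),
      F2 (T w.1.1) w.1.2.1 w.1.2.2 w.2 ≠ 0 :=
    (F2_continuousAt T hT q₀ z₀ h.1).eventually_ne h.2.2
  rw [nhds_prod_eq, Filter.eventually_prod_iff] at h1
  obtain ⟨pa, hpa, pb, hpb, hab⟩ := h1
  have h2 := stability T hT q₀ z₀ h.1 h.2.1 (not_eventually_one _ _ _ h) (N ∩ {z | pb z})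
    (Filter.inter_mem hN hpb)
  filter_upwards [h2, hpa] with q hq hqa
  obtain ⟨z, ⟨hzN, hzb⟩, hz1, hz2⟩ := hq
  exact ⟨z, hzN, hz1, hz2, hab hqa hzb⟩

end family

/-- **The local estimate.** -/
theorem local_estimate (T : X →L[ℂ] X) (u₀ : X) (v₀ : X →L[ℂ] ℂ) (ε : ℝ) (hε : 0 < ε)
    (z : ℂ) (hcon : ∀ (u : X) (v : X →L[ℂ] ℂ), ‖u - u₀‖ < ε → ‖v - v₀‖ < ε → F T u v z ≠ 1) :
    ‖resolvent T z‖ ≤ 3 / ε ^ 2 * ‖F T u₀ v₀ z - 1‖ := by
  refine opNorm_le_of_unit _ _ (by positivity) fun u' v' hu' hv' => ?_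
  refine bidisc (F T u₀ v₀ z - 1) (v₀ (resolvent T z u')) (v' (resolvent T z u₀)) _ ε hε
    fun a b ha hb h0 => ?_
  refine hcon (u₀ + a • u') (v₀ + b • v') ?_ ?_ ?_
  · rw [add_sub_cancel_left, norm_smul]
    calc ‖a‖ * ‖u'‖ ≤ ‖a‖ * 1 := by gcongr
      _ < ε := by linarith
  · rw [add_sub_cancel_left, norm_smul]
    calc ‖b‖ * ‖v'‖ ≤ ‖b‖ * 1 := by gcongr
      _ < ε := by linarith
  · have h1 : F T (u₀ + a • u') (v₀ + b • v') z = F T u₀ v₀ z + a * v₀ (resolvent T z u') +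
        b * v' (resolvent T z u₀) + a * b * v' (resolvent T z u') := by
      simp only [F, map_add, map_smul, smul_eq_mul, add_apply,
        FunLike.coe_smul, Pi.smul_apply]
      ring
    rw [h1]
    linear_combination h0

/-- `w` is a pole of the resolvent of `T` (or a point outside the spectrum). -/
def IsPole (T : X →L[ℂ] X) (w : ℂ) : Prop :=
  ∃ (m : ℕ) (C : ℝ), ∀ᶠ z in 𝓝[≠] w, z ∉ spectrum ℂ T ∧ ‖z - w‖ ^ m * ‖resolvent T z‖ ≤ C

/-- **Local density.** -/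
theorem local_density (T : X →L[ℂ] X) (w : ℂ) (hw : w ∈ frontier (spectrum ℂ T))
    (hp : ¬ IsPole T w) (N : Set ℂ) (hN : N ∈ 𝓝 w) (u₀ : X) (v₀ : X →L[ℂ] ℂ)
    (ε : ℝ) (hε : 0 < ε) :
    ∃ (u : X) (v : X →L[ℂ] ℂ), ‖u - u₀‖ < ε ∧ ‖v - v₀‖ < ε ∧
      ∃ z ∈ N, z ∈ resolventSet ℂ T ∧ F T u v z = 1 := by
  classical
  by_contra hcon
  push Not at hcon
  have hK : IsClosed (spectrum ℂ T) := spectrum.isClosed T
  have hwK : w ∈ spectrum ℂ T := hK.frontier_subset hw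
  have hwres : w ∉ resolventSet ℂ T := hwK
  have hwcl : w ∈ closure (resolventSet ℂ T) := by
    have h1 := hw
    rw [frontier_eq_closure_inter_closure] at h1
    have h2 : (spectrum ℂ T)ᶜ = resolventSet ℂ T := by
      ext z; simp [spectrum]
    rw [h2] at h1
    exact h1.2
  obtain ⟨d, hd, hdN⟩ := Metric.nhds_basis_closedBall.mem_iff.1 hN
  set C : ℝ := 3 / ε ^ 2 with hC
  have hC0 : 0 < C := by positivity
  set γ : ℂ → ℂ := F T u₀ v₀ with hγ
  have hγ1 : ∀ z ∈ closedBall w d, z ∈ resolventSet ℂ T → γ z - 1 ≠ 0 := by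
    intro z hz hzr h0
    exact hcon u₀ v₀ (by simpa using hε) (by simpa using hε) z (hdN hz) hzr (by
      rw [sub_eq_zero] at h0; exact h0)
  have hR : ∀ z ∈ closedBall w d, z ∈ resolventSet ℂ T → ‖resolvent T z‖ ≤ C * ‖γ z - 1‖ :=
    fun z hz hzr => local_estimate T u₀ v₀ ε hε z
      fun u v hu hv => hcon u v hu hv z (hdN hz) hzr
  set g : ℂ → ℂ := fun z => if z ∈ resolventSet ℂ T then (γ z - 1)⁻¹ else 0 with hg
  have hgin : ∀ z ∈ resolventSet ℂ T, g z = (γ z - 1)⁻¹ := fun z hz => by simp only [hg, if_pos hz]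
  have hgout : ∀ z, z ∉ resolventSet ℂ T → g z = 0 := fun z hz => by simp only [hg, if_neg hz]
  have hgbd : ∀ z ∈ closedBall w d, ∀ a ∈ spectrum ℂ T, ‖g z‖ ≤ C * ‖z - a‖ := by
    intro z hzd a ha
    have ha' : a ∉ resolventSet ℂ T := ha
    by_cases hz : z ∈ resolventSet ℂ T
    · rw [hgin z hz, norm_inv]
      have hpos : 0 < ‖γ z - 1‖ := norm_pos_iff.2 (hγ1 z hzd hz)
      rw [inv_le_iff_one_le_mul₀ hpos]
      calc (1 : ℝ) ≤ ‖z - a‖ * ‖resolvent T z‖ := one_le_dist_mul T hz ha'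
        _ ≤ ‖z - a‖ * (C * ‖γ z - 1‖) := by gcongr; exact hR z hzd hz
        _ = C * ‖z - a‖ * ‖γ z - 1‖ := by ring
    · rw [hgout z hz, norm_zero]; positivity
  have hgd : ∀ z ∈ closedBall w d, z ∉ spectrum ℂ T → DifferentiableAt ℂ g z := by
    intro z hzd hz
    have hzr : z ∈ resolventSet ℂ T := by simpa [spectrum] using hz
    refine (((F_differentiableAt T u₀ v₀ hzr).sub_const 1).inv
      (hγ1 z hzd hzr)).congr_of_eventuallyEq ?_
    filter_upwards [(spectrum.isOpen_resolventSet (𝕜 := ℂ) T).mem_nhds hzr] with y hy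
    exact hgin y hy
  by_cases hacc : AccPt w (𝓟 (spectrum ℂ T))
  · obtain ⟨z, hzr, hzw⟩ := Metric.mem_closure_iff.1 hwcl (d / 4) (by positivity)
    have hzb : z ∈ ball w (d / 4) := by rw [mem_ball, dist_comm]; exact hzw
    have hzK : z ∉ spectrum ℂ T := by simpa [spectrum] using hzr
    have h1 := vanish (spectrum ℂ T) hK w hwK hacc d hd g C hC0.le hgd hgbd z hzb hzK
    rw [hgin z hzr] at h1
    exact inv_ne_zero (hγ1 z (ball_subset_closedBall (ball_subset_ball (by linarith) hzb)) hzr) h1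
  · refine hp ?_
    have hev : ∀ᶠ z in 𝓝[≠] w, z ∉ spectrum ℂ T := by
      rw [accPt_iff_frequently_nhdsNE, Filter.not_frequently] at hacc
      exact hacc
    have hevd : ∀ᶠ z in 𝓝[≠] w, z ∈ closedBall w d :=
      mem_nhdsWithin_of_mem_nhds (closedBall_mem_nhds w hd)
    have hgw : g w = 0 := hgout w hwres
    have hcont : ContinuousAt g w := by
      rw [ContinuousAt, hgw, tendsto_zero_iff_norm_tendsto_zero]
      have h1 : Tendsto (fun y : ℂ => C * ‖y - w‖) (𝓝 w) (𝓝 0) := by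
        have : Continuous fun y : ℂ => C * ‖y - w‖ := by fun_prop
        have h2 := this.tendsto w
        simpa using h2
      refine squeeze_zero' (Eventually.of_forall fun y => norm_nonneg _) ?_ h1
      filter_upwards [closedBall_mem_nhds w hd] with y hy
      exact hgbd y hy w hwK
    have han : AnalyticAt ℂ g w := by
      refine Complex.analyticAt_of_differentiable_on_punctured_nhds_of_continuousAt ?_ hcont
      filter_upwards [hev, hevd] with z h1 h2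
      exact hgd z h2 h1
    have hne0 : ∀ᶠ z in 𝓝[≠] w, g z ≠ 0 := by
      filter_upwards [hev, hevd] with z h1 h2
      have hzr : z ∈ resolventSet ℂ T := by simpa [spectrum] using h1
      rw [hgin z hzr]
      exact inv_ne_zero (hγ1 z h2 hzr)
    have hnz : ¬ ∀ᶠ z in 𝓝 w, g z = 0 := by
      intro h0
      have h1 : ∀ᶠ z in 𝓝[≠] w, g z = 0 := h0.filter_mono nhdsWithin_le_nhds
      obtain ⟨z, hz1, hz2⟩ := (hne0.and h1).exists
      exact hz1 hz2
    obtain ⟨m, k, hk, hkw, hgk⟩ := han.exists_eventuallyEq_pow_smul_nonzero_iff.2 hnz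
    have hkpos : 0 < ‖k w‖ := norm_pos_iff.2 hkw
    have hkev : ∀ᶠ z in 𝓝 w, ‖k w‖ / 2 < ‖k z‖ :=
      hk.continuousAt.norm.eventually_const_lt (by linarith)
    refine ⟨m, C / (‖k w‖ / 2), ?_⟩
    filter_upwards [hev, hevd, hgk.filter_mono nhdsWithin_le_nhds,
      hkev.filter_mono nhdsWithin_le_nhds, self_mem_nhdsWithin] with z h1 h2 h3 h4 h5
    refine ⟨h1, ?_⟩
    have hzr : z ∈ resolventSet ℂ T := by simpa [spectrum] using h1
    have h6 := hR z h2 hzr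
    have hpos : 0 < ‖γ z - 1‖ := norm_pos_iff.2 (hγ1 z h2 hzr)
    rw [hgin z hzr, smul_eq_mul] at h3
    have h7 : ‖z - w‖ ^ m * ‖k z‖ * ‖γ z - 1‖ = 1 := by
      have h8 : ‖(γ z - 1)⁻¹‖ = ‖z - w‖ ^ m * ‖k z‖ := by rw [h3, norm_mul, norm_pow]
      rw [← h8, norm_inv, inv_mul_cancel₀ hpos.ne']
    rw [le_div_iff₀ (by positivity)]
    calc ‖z - w‖ ^ m * ‖resolvent T z‖ * (‖k w‖ / 2)
        ≤ ‖z - w‖ ^ m * (C * ‖γ z - 1‖) * ‖k z‖ := by gcongr
      _ = C * (‖z - w‖ ^ m * ‖k z‖ * ‖γ z - 1‖) := by ring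
      _ = C := by rw [h7, mul_one]

end Pool.Agent.U524.RO
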