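import Pool.Agent.U524.RO.Basic

set_option autoImplicit false

open Set Metric Topology Filter

namespace Pool.Agent.U524.RO

variable {X : Type*} [NormedAddCommGroup X] [NormedSpace ℂ X]

theorem opNorm_le_of_unit (A : X →L[ℂ] X) (K : ℝ) (hK : 0 ≤ K)
    (h : ∀ (u : X) (v : X →L[ℂ] ℂ), ‖u‖ ≤ 1 → ‖v‖ ≤ 1 → ‖v (A u)‖ ≤ K) : ‖A‖ ≤ K := by
  refine ContinuousLinearMap.opNorm_le_bound _ hK fun x => ?_
  refine NormedSpace.norm_le_dual_bound ℂ _ (by positivity) fun f => ?_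
  rcases eq_or_ne x 0 with rfl | hx
  · simp
  rcases eq_or_ne f 0 with rfl | hf
  · simp
  have hx' : 0 < ‖x‖ := norm_pos_iff.2 hx
  have hf' : 0 < ‖f‖ := norm_pos_iff.2 hf
  have h1 := h (((‖x‖⁻¹ : ℝ) : ℂ) • x) (((‖f‖⁻¹ : ℝ) : ℂ) • f)
    (by rw [norm_smul, Complex.norm_real, norm_inv, norm_norm, inv_mul_cancel₀ hx'.ne'])
    (by rw [norm_smul, Complex.norm_real, norm_inv, norm_norm, inv_mul_cancel₀ hf'.ne'])
  rw [map_smul, FunLike.coe_smul, Pi.smul_apply, map_smul, norm_smul, norm_smul,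
    Complex.norm_real, Complex.norm_real, norm_inv, norm_inv, norm_norm, norm_norm] at h1
  rw [inv_mul_le_iff₀ hf', inv_mul_le_iff₀ hx'] at h1
  linarith

theorem outside_preconnected (r : ℝ) (hr : 0 ≤ r) : IsPreconnected {z : ℂ | r < ‖z‖} := by
  have h1 : IsPreconnected ((Ioi r) ×ˢ (univ : Set ℝ)) :=
    (convex_Ioi r).isPreconnected.prod isPreconnected_univ
  have h2 : Continuous fun p : ℝ × ℝ => (p.1 : ℂ) * Complex.exp (p.2 * Complex.I) := by fun_prop
  have h3 := h1.image _ h2.continuousOn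
  convert h3 using 1
  ext z
  simp only [mem_setOf_eq, mem_image, mem_prod, mem_Ioi, mem_univ, and_true, Prod.exists]
  constructor
  · intro hz
    exact ⟨‖z‖, z.arg, hz, Complex.norm_mul_exp_arg_mul_I z⟩
  · rintro ⟨a, b, ha, rfl⟩
    rw [norm_mul, Complex.norm_exp_ofReal_mul_I, mul_one, Complex.norm_real, Real.norm_eq_abs]
    exact lt_of_lt_of_le ha (le_abs_self a)

/-- the unbounded component of the resolvent set -/
noncomputable def Om (T : X →L[ℂ] X) : Set ℂ :=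
  connectedComponentIn (resolventSet ℂ T) ((‖T‖ + 1 : ℝ) : ℂ)

variable [CompleteSpace X]

theorem mem_res_of_lt [Nontrivial X] (T : X →L[ℂ] X) {z : ℂ} (hz : ‖T‖ < ‖z‖) :
    z ∈ resolventSet ℂ T := spectrum.mem_resolventSet_of_norm_lt hz

theorem Om_subset (T : X →L[ℂ] X) : Om T ⊆ resolventSet ℂ T := connectedComponentIn_subset _ _

theorem Om_open (T : X →L[ℂ] X) : IsOpen (Om T) :=
  (spectrum.isOpen_resolventSet T).connectedComponentIn

theorem Om_preconnected (T : X →L[ℂ] X) : IsPreconnected (Om T) :=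
  isPreconnected_connectedComponentIn

theorem mem_Om_of_lt [Nontrivial X] (T : X →L[ℂ] X) {z : ℂ} (hz : ‖T‖ < ‖z‖) : z ∈ Om T := by
  have h1 : {z : ℂ | ‖T‖ < ‖z‖} ⊆ Om T := by
    refine (outside_preconnected ‖T‖ (norm_nonneg _)).subset_connectedComponentIn ?_
      (fun w hw => mem_res_of_lt T hw)
    rw [mem_setOf_eq, Complex.norm_real, Real.norm_of_nonneg (by positivity)]
    linarith
  exact h1 hz

theorem frontier_Om (T : X →L[ℂ] X) {z : ℂ} (hz : z ∈ frontier (Om T)) :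
    z ∉ resolventSet ℂ T := by
  intro hzr
  obtain ⟨δ, hδ, hball⟩ := Metric.isOpen_iff.1 (spectrum.isOpen_resolventSet (𝕜 := ℂ) T) z hzr
  have hcl : z ∈ closure (Om T) := frontier_subset_closure hz
  obtain ⟨w, hw, hwz⟩ := Metric.mem_closure_iff.1 hcl δ hδ
  have hwb : w ∈ ball z δ := by rw [mem_ball, dist_comm]; exact hwz
  have h1 : ball z δ ⊆ connectedComponentIn (resolventSet ℂ T) w :=
    (convex_ball z δ).isPreconnected.subset_connectedComponentIn hwb hball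
  have h2 : connectedComponentIn (resolventSet ℂ T) w = Om T :=
    (connectedComponentIn_eq hw).symm
  have h3 : z ∈ Om T := by
    rw [← h2]; exact h1 (mem_ball_self hδ)
  exact hz.2 ((Om_open T).interior_eq.symm ▸ h3)

/-- the norm of the resolvent far from the spectrum -/
theorem norm_res_le (T : X →L[ℂ] X) {z : ℂ} (hz : z ∈ resolventSet ℂ T) (x : X) :
    (‖z‖ - ‖T‖) * ‖resolvent T z x‖ ≤ ‖x‖ := by
  have h1 := res_mul T hz x
  have h2 : ‖z • resolvent T z x‖ ≤ ‖x‖ + ‖T (resolvent T z x)‖ := by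
    have : z • resolvent T z x = x + T (resolvent T z x) := by
      rw [sub_eq_iff_eq_add] at h1
      rw [h1]
    rw [this]
    exact norm_add_le _ _
  rw [norm_smul] at h2
  have h3 := T.le_opNorm (resolvent T z x)
  nlinarith

theorem norm_F_le (T : X →L[ℂ] X) (u : X) (v : X →L[ℂ] ℂ) {z : ℂ} (hz : z ∈ resolventSet ℂ T)
    (hz' : ‖T‖ < ‖z‖) : ‖F T u v z‖ ≤ ‖v‖ * ‖u‖ / (‖z‖ - ‖T‖) := by
  have h1 := norm_res_le T hz u
  have h2 : ‖resolvent T z u‖ ≤ ‖u‖ / (‖z‖ - ‖T‖) := by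
    rw [le_div_iff₀ (by linarith)]
    linarith
  calc ‖F T u v z‖ ≤ ‖v‖ * ‖resolvent T z u‖ := v.le_opNorm _
    _ ≤ ‖v‖ * (‖u‖ / (‖z‖ - ‖T‖)) := by gcongr
    _ = _ := by ring

/-- some value of `F` at a far point is in the open unit disc around `1` -/
theorem exists_near_one [Nontrivial X] (T : X →L[ℂ] X) (u : X) (v : X →L[ℂ] ℂ) (huv : v u ≠ 0) :
    ∃ z : ℂ, ‖T‖ < ‖z‖ ∧ ‖F T u v z - 1‖ < 1 := by
  set c : ℝ := ‖v u‖ with hc
  have hc0 : 0 < c := norm_pos_iff.2 huv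
  set K : ℝ := ‖v‖ * ‖T‖ * ‖u‖ with hK
  have hK0 : 0 ≤ K := by positivity
  set s : ℝ := ‖T‖ + K / c + c + 1 with hs
  have hs0 : 0 < s := by positivity
  have hKc : 0 ≤ K / c := by positivity
  set z : ℂ := ((s / c : ℝ) : ℂ) * v u with hzdef
  have hzn : ‖z‖ = s := by
    rw [hzdef, norm_mul, Complex.norm_real, Real.norm_of_nonneg (by positivity), ← hc]
    field_simp
  have hz0 : z ≠ 0 := by
    intro h0
    rw [h0, norm_zero] at hzn
    linarith
  have hzT : ‖T‖ < ‖z‖ := by rw [hzn]; linarith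
  have hzr : z ∈ resolventSet ℂ T := mem_res_of_lt T hzT
  refine ⟨z, hzT, ?_⟩
  have h1 := res_mul T hzr u
  have h2 : z * F T u v z = v u + v (T (resolvent T z u)) := by
    have h3 : z • resolvent T z u = u + T (resolvent T z u) := by
      rw [sub_eq_iff_eq_add] at h1
      rw [h1]
    have h4 := congrArg v h3
    rw [map_smul, map_add, smul_eq_mul] at h4
    exact h4
  have h5 : F T u v z - 1 = ((c / s - 1 : ℝ) : ℂ) + z⁻¹ * v (T (resolvent T z u)) := by
    have h6 : F T u v z = z⁻¹ * (v u + v (T (resolvent T z u))) := by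
      rw [← h2]; field_simp
    rw [h6, mul_add]
    have h7 : z⁻¹ * v u = ((c / s : ℝ) : ℂ) := by
      rw [hzdef]
      push_cast
      have hcc : ((c : ℝ) : ℂ) ≠ 0 := by exact_mod_cast hc0.ne'
      have hss : ((s : ℝ) : ℂ) ≠ 0 := by exact_mod_cast hs0.ne'
      field_simp
    rw [h7]
    push_cast
    ring
  have h8 : ‖v (T (resolvent T z u))‖ ≤ K / (s - ‖T‖) := by
    have h9 := norm_res_le T hzr u
    rw [hzn] at h9
    have hsT : 0 < s - ‖T‖ := by rw [hs]; linarith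
    have h10 : ‖resolvent T z u‖ ≤ ‖u‖ / (s - ‖T‖) := by
      rw [le_div_iff₀ hsT]; linarith
    calc ‖v (T (resolvent T z u))‖ ≤ ‖v‖ * ‖T (resolvent T z u)‖ := v.le_opNorm _
      _ ≤ ‖v‖ * (‖T‖ * ‖resolvent T z u‖) := by
          gcongr; exact T.le_opNorm _
      _ ≤ ‖v‖ * (‖T‖ * (‖u‖ / (s - ‖T‖))) := by gcongr
      _ = K / (s - ‖T‖) := by rw [hK]; ring
  rw [h5]
  refine (norm_add_le _ _).trans_lt ?_
  rw [norm_mul, norm_inv, hzn, Complex.norm_real]
  have hcs : c / s ≤ 1 := by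
    rw [div_le_one hs0]; linarith [norm_nonneg T]
  rw [Real.norm_eq_abs, abs_of_nonpos (by linarith)]
  have hsT : 0 < s - ‖T‖ := by rw [hs]; linarith
  have h11 : K / (s - ‖T‖) < c := by
    rw [div_lt_iff₀ hsT]
    have : c * (s - ‖T‖) = K + c * c + c := by
      rw [hs]; field_simp; ring
    nlinarith
  have h12 : s⁻¹ * ‖v (T (resolvent T z u))‖ < c / s := by
    rw [div_eq_inv_mul]
    gcongr
    exact lt_of_le_of_lt h8 h11
  linarith

/-- **Density.** -/
theorem density [Nontrivial X] (T : X →L[ℂ] X) (u₀ : X) (v₀ : X →L[ℂ] ℂ) (huv : v₀ u₀ ≠ 0)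
    (ε : ℝ) (hε : 0 < ε) :
    ∃ (u : X) (v : X →L[ℂ] ℂ), ‖u - u₀‖ < ε ∧ ‖v - v₀‖ < ε ∧ ∃ z ∈ Om T, F T u v z = 1 := by
  by_contra hcon
  push Not at hcon
  set γ : ℂ → ℂ := F T u₀ v₀ with hγ
  have hγ1 : ∀ z ∈ Om T, γ z - 1 ≠ 0 := by
    intro z hz h0
    exact hcon u₀ v₀ (by simpa using hε) (by simpa using hε) z hz (by
      rw [sub_eq_zero] at h0; exact h0)
  set C : ℝ := 3 / ε ^ 2 with hC
  have hC0 : 0 < C := by positivity
  have hR : ∀ z ∈ Om T, ‖resolvent T z‖ ≤ C * ‖γ z - 1‖ := by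
    intro z hz
    refine opNorm_le_of_unit _ _ (by positivity) fun u' v' hu' hv' => ?_
    refine bidisc (γ z - 1) (v₀ (resolvent T z u')) (v' (resolvent T z u₀)) _ ε hε
      fun a b ha hb h0 => ?_
    refine hcon (u₀ + a • u') (v₀ + b • v') ?_ ?_ z hz ?_
    · rw [add_sub_cancel_left, norm_smul]
      calc ‖a‖ * ‖u'‖ ≤ ‖a‖ * 1 := by gcongr
        _ < ε := by linarith
    · rw [add_sub_cancel_left, norm_smul]
      calc ‖b‖ * ‖v'‖ ≤ ‖b‖ * 1 := by gcongr
        _ < ε := by linarith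
    · have h1 : F T (u₀ + a • u') (v₀ + b • v') z = γ z + a * v₀ (resolvent T z u') +
          b * v' (resolvent T z u₀) + a * b * v' (resolvent T z u') := by
        simp only [F, hγ, map_add, map_smul, smul_eq_mul, ContinuousLinearMap.add_apply,
          FunLike.coe_smul, Pi.smul_apply]
        ring
      rw [h1]
      linear_combination h0
  classical
  set g : ℂ → ℂ := fun z => if z ∈ Om T then (γ z - 1)⁻¹ else 0 with hg
  have hgin : ∀ z ∈ Om T, g z = (γ z - 1)⁻¹ := fun z hz => by simp only [hg, if_pos hz]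
  have hgout : ∀ z, z ∉ Om T → g z = 0 := fun z hz => by simp only [hg, if_neg hz]
  have hgbd : ∀ z w, w ∉ resolventSet ℂ T → ‖g z‖ ≤ C * ‖z - w‖ := by
    intro z w hw
    by_cases hz : z ∈ Om T
    · rw [hgin z hz, norm_inv]
      have hpos : 0 < ‖γ z - 1‖ := norm_pos_iff.2 (hγ1 z hz)
      rw [inv_le_iff_one_le_mul₀ hpos]
      calc (1 : ℝ) ≤ ‖z - w‖ * ‖resolvent T z‖ := one_le_dist_mul T (Om_subset T hz) hw
        _ ≤ ‖z - w‖ * (C * ‖γ z - 1‖) := by gcongr; exact hR z hz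
        _ = C * ‖z - w‖ * ‖γ z - 1‖ := by ring
    · rw [hgout z hz, norm_zero]; positivity
  have hγd : ∀ z ∈ Om T, DifferentiableAt ℂ (fun w => (γ w - 1)⁻¹) z := by
    intro z hz
    exact ((F_differentiableAt T u₀ v₀ (Om_subset T hz)).sub_const 1).inv (hγ1 z hz)
  have hgd : ∀ z ∈ Om T, DifferentiableAt ℂ g z := by
    intro z hz
    refine (hγd z hz).congr_of_eventuallyEq ?_
    filter_upwards [(Om_open T).mem_nhds hz] with w hw
    exact hgin w hw
  obtain ⟨z₁, hz₁T, hz₁⟩ := exists_near_one T u₀ v₀ huv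
  have hz₁Om : z₁ ∈ Om T := mem_Om_of_lt T hz₁T
  have hpos₁ : 0 < ‖γ z₁ - 1‖ := norm_pos_iff.2 (hγ1 z₁ hz₁Om)
  -- choose the radius
  set K : ℝ := ‖v₀‖ * ‖u₀‖ with hK
  have hK0 : 0 ≤ K := by positivity
  set d : ℝ := 1 - ‖γ z₁ - 1‖ with hd
  have hd0 : 0 < d := by rw [hd]; linarith
  set r : ℝ := ‖T‖ + ‖z₁‖ + 2 * K / d + 1 with hr
  have hKd : 0 ≤ 2 * K / d := by positivity
  have hrT : ‖T‖ < r := by rw [hr]; linarith [norm_nonneg z₁]
  have hrz : ‖z₁‖ < r := by rw [hr]; linarith [norm_nonneg T]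
  have hη : K / (r - ‖T‖) < d := by
    rw [div_lt_iff₀ (by linarith)]
    have h1 : d * (2 * K / d) = 2 * K := by field_simp
    have h2 : d * (r - ‖T‖) = d * ‖z₁‖ + 2 * K + d := by
      rw [hr]
      have : d * (‖T‖ + ‖z₁‖ + 2 * K / d + 1 - ‖T‖) = d * ‖z₁‖ + d * (2 * K / d) + d := by ring
      rw [this, h1]
    rw [h2]
    nlinarith [norm_nonneg z₁]
  have hη1 : 0 < 1 - K / (r - ‖T‖) := by
    have : d < 1 := by rw [hd]; linarith
    linarith
  have hdiff : DiffContOnCl ℂ g (Om T ∩ ball 0 r) := by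
    refine ⟨fun z hz => (hgd z hz.1).differentiableWithinAt, fun z hz => ?_⟩
    by_cases hzO : z ∈ Om T
    · exact (hgd z hzO).continuousAt.continuousWithinAt
    · have hzcl : z ∈ closure (Om T) := closure_mono inter_subset_left hz
      have hzf : z ∈ frontier (Om T) := by
        rw [(Om_open T).frontier_eq]
        exact ⟨hzcl, hzO⟩
      have hzr := frontier_Om T hzf
      refine ContinuousAt.continuousWithinAt ?_
      rw [ContinuousAt, hgout z hzO, tendsto_zero_iff_norm_tendsto_zero]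
      have h1 : Tendsto (fun w : ℂ => C * ‖w - z‖) (𝓝 z) (𝓝 0) := by
        have : Continuous fun w : ℂ => C * ‖w - z‖ := by fun_prop
        have h2 := this.tendsto z
        simpa using h2
      exact squeeze_zero (fun w => norm_nonneg _) (fun w => hgbd w z hzr) h1
  have hmax : ‖g z₁‖ ≤ (1 - K / (r - ‖T‖))⁻¹ := by
    refine Complex.norm_le_of_forall_mem_frontier_norm_le
      (isBounded_ball.subset inter_subset_right) hdiff ?_ (subset_closure ⟨hz₁Om, by simpa using hrz⟩)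
    intro w hw
    have hw' := frontier_inter_subset _ _ hw
    rcases hw' with ⟨hw1, -⟩ | ⟨-, hw2⟩
    · have hwn : w ∉ Om T := fun h => (frontier_Om T hw1) (Om_subset T h)
      rw [hgout w hwn, norm_zero]
      positivity
    · have hwr : ‖w‖ = r := by
        have h1 : w ∈ sphere (0 : ℂ) r := frontier_ball_subset_sphere hw2
        simpa using h1
      have hwT : ‖T‖ < ‖w‖ := by rw [hwr]; exact hrT
      have hwO : w ∈ Om T := mem_Om_of_lt T hwT
      rw [hgin w hwO, norm_inv]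
      have h2 := norm_F_le T u₀ v₀ (Om_subset T hwO) hwT
      rw [hwr] at h2
      have h3 : 1 - K / (r - ‖T‖) ≤ ‖γ w - 1‖ := by
        have h4 : ‖(1 : ℂ)‖ ≤ ‖γ w‖ + ‖γ w - 1‖ := by
          have : (1 : ℂ) = γ w - (γ w - 1) := by ring
          calc ‖(1 : ℂ)‖ = ‖γ w - (γ w - 1)‖ := by rw [← this]
            _ ≤ _ := norm_sub_le _ _
        rw [norm_one] at h4
        have h5 : ‖γ w‖ ≤ K / (r - ‖T‖) := h2
        linarith
      gcongr
  rw [hgin z₁ hz₁Om, norm_inv] at hmax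
  have h6 : 1 - K / (r - ‖T‖) ≤ ‖γ z₁ - 1‖ := by
    rwa [inv_le_inv₀ hpos₁ hη1] at hmax
  rw [hd] at hη
  linarith

end Pool.Agent.U524.RO
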