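import Pool.Agent.U524.RO.Main

set_option autoImplicit false

open Set Metric Topology Filter

namespace Pool.Agent.U524.RO

variable {X : Type*} [NormedAddCommGroup X] [NormedSpace ℂ X] [CompleteSpace X]
  {P : Type*} [TopologicalSpace P]

theorem res_continuousAt (T : P → (X →L[ℂ] X)) (hT : Continuous T) (p : P) (z : ℂ)
    (hz : z ∈ resolventSet ℂ (T p)) :
    ContinuousAt (fun q : P × ℂ => resolvent (T q.1) q.2) (p, z) := by
  have hz' : IsUnit (algebraMap ℂ (X →L[ℂ] X) z - T p) := hz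
  obtain ⟨a, ha⟩ := hz'
  have h1 : ContinuousAt Ring.inverse (a : X →L[ℂ] X) := NormedRing.inverse_continuousAt a
  have h2 : Continuous fun q : P × ℂ => algebraMap ℂ (X →L[ℂ] X) q.2 - T q.1 := by
    have h3 : Continuous fun q : P × ℂ => algebraMap ℂ (X →L[ℂ] X) q.2 :=
      (algebraMapCLM ℂ (X →L[ℂ] X)).continuous.comp continuous_snd
    exact h3.sub (hT.comp continuous_fst)
  have h4 : ContinuousAt (fun q : P × ℂ => Ring.inverse (algebraMap ℂ (X →L[ℂ] X) q.2 - T q.1))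
      (p, z) := by
    refine ContinuousAt.comp (g := Ring.inverse) ?_ h2.continuousAt
    simp only
    rw [← ha]
    exact h1
  exact h4

/-- `F` as a function of all its variables. -/
noncomputable def Phi (T : P → (X →L[ℂ] X)) (q : P × X × (X →L[ℂ] ℂ)) (z : ℂ) : ℂ :=
  F (T q.1) q.2.1 q.2.2 z

theorem Phi_continuousAt (T : P → (X →L[ℂ] X)) (hT : Continuous T) (q : P × X × (X →L[ℂ] ℂ))
    (z : ℂ) (hz : z ∈ resolventSet ℂ (T q.1)) :
    ContinuousAt (fun w : (P × X × (X →L[ℂ] ℂ)) × ℂ => Phi T w.1 w.2) (q, z) := by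
  have h1 : ContinuousAt (fun w : (P × X × (X →L[ℂ] ℂ)) × ℂ => resolvent (T w.1.1) w.2) (q, z) := by
    have h2 : ContinuousAt (fun w : (P × X × (X →L[ℂ] ℂ)) × ℂ => ((w.1.1, w.2) : P × ℂ)) (q, z) := by
      fun_prop
    have h5 : Tendsto (fun q : P × ℂ => resolvent (T q.1) q.2) (𝓝 (q.1, z))
        (𝓝 (resolvent (T q.1) z)) := res_continuousAt T hT q.1 z hz
    exact h5.comp h2.tendsto
  have h3 : ContinuousAt (fun w : (P × X × (X →L[ℂ] ℂ)) × ℂ => w.1.2.1) (q, z) := by fun_prop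
  have h4 : ContinuousAt (fun w : (P × X × (X →L[ℂ] ℂ)) × ℂ => w.1.2.2) (q, z) := by fun_prop
  exact h4.clm_apply (h1.clm_apply h3)

theorem resolventSet_eventually (T : P → (X →L[ℂ] X)) (hT : Continuous T)
    (p : P) (z : ℂ) (hz : z ∈ resolventSet ℂ (T p)) :
    ∀ᶠ w : P × ℂ in 𝓝 (p, z), w.2 ∈ resolventSet ℂ (T w.1) := by
  have h2 : Continuous fun q : P × ℂ => algebraMap ℂ (X →L[ℂ] X) q.2 - T q.1 := by
    have h3 : Continuous fun q : P × ℂ => algebraMap ℂ (X →L[ℂ] X) q.2 :=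
      (algebraMapCLM ℂ (X →L[ℂ] X)).continuous.comp continuous_snd
    exact h3.sub (hT.comp continuous_fst)
  have h3 : IsOpen {a : X →L[ℂ] X | IsUnit a} := Units.isOpen
  exact (h3.preimage h2).mem_nhds hz

/-- **Stability.** -/
theorem stability (T : P → (X →L[ℂ] X)) (hT : Continuous T) (q₀ : P × X × (X →L[ℂ] ℂ))
    (z₀ : ℂ) (hz₀ : z₀ ∈ resolventSet ℂ (T q₀.1)) (h1 : Phi T q₀ z₀ = 1)
    (hne : ¬ ∀ᶠ z in 𝓝 z₀, Phi T q₀ z = 1) (N : Set ℂ) (hN : N ∈ 𝓝 z₀) :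
    ∀ᶠ q in 𝓝 q₀, ∃ z ∈ N, z ∈ resolventSet ℂ (T q.1) ∧ Phi T q z = 1 := by
  have hopen : IsOpen (resolventSet ℂ (T q₀.1)) := spectrum.isOpen_resolventSet _
  have hdiff : DifferentiableOn ℂ (fun z => Phi T q₀ z - 1) (resolventSet ℂ (T q₀.1)) :=
    fun z hz => ((F_differentiableAt _ _ _ hz).sub_const 1).differentiableWithinAt
  have han : AnalyticAt ℂ (fun z => Phi T q₀ z - 1) z₀ :=
    hdiff.analyticAt (hopen.mem_nhds hz₀)
  have hev : ∀ᶠ z in 𝓝[≠] z₀, Phi T q₀ z - 1 ≠ 0 := by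
    rcases han.eventually_eq_zero_or_eventually_ne_zero with h | h
    · exact absurd (h.mono fun z hz => sub_eq_zero.1 hz) hne
    · exact h
  rw [eventually_nhdsWithin_iff] at hev
  have hev2 := hev.and (Filter.inter_mem (hopen.mem_nhds hz₀) hN)
  obtain ⟨r, hr, hball⟩ := Metric.nhds_basis_closedBall.eventually_iff.1 hev2
  have hsph : ∀ z ∈ sphere z₀ r, Phi T q₀ z - 1 ≠ 0 := by
    intro z hz
    refine (hball (sphere_subset_closedBall hz)).1 ?_
    intro h0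
    rw [mem_singleton_iff] at h0
    rw [h0, mem_sphere, dist_self] at hz
    exact hr.ne hz
  have hres : ∀ z ∈ closedBall z₀ r, z ∈ resolventSet ℂ (T q₀.1) := fun z hz => (hball hz).2.1
  have hresN : ∀ z ∈ closedBall z₀ r, z ∈ N := fun z hz => (hball hz).2.2
  have hcont : ContinuousOn (fun z => ‖Phi T q₀ z - 1‖) (sphere z₀ r) := by
    intro z hz
    exact (((F_differentiableAt _ _ _ (hres z (sphere_subset_closedBall hz))).sub_const
      1).continuousAt.norm).continuousWithinAt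
  have hsne : (sphere z₀ r).Nonempty := NormedSpace.sphere_nonempty.2 hr.le
  obtain ⟨w, hw, hwmin⟩ := (isCompact_sphere z₀ r).exists_isMinOn hsne hcont
  set m : ℝ := ‖Phi T q₀ w - 1‖ with hm
  have hm0 : 0 < m := norm_pos_iff.2 (hsph w hw)
  have hmin : ∀ z ∈ sphere z₀ r, m ≤ ‖Phi T q₀ z - 1‖ := fun z hz => hwmin hz
  have hA : ∀ᶠ q in 𝓝 q₀, ∀ z ∈ closedBall z₀ r, z ∈ resolventSet ℂ (T q.1) := by
    refine (isCompact_closedBall z₀ r).eventually_forall_of_forall_eventually fun z hz => ?_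
    have h2 := resolventSet_eventually T hT q₀.1 z (hres z hz)
    have h3 : Tendsto (fun w : (P × X × (X →L[ℂ] ℂ)) × ℂ => ((w.1.1, w.2) : P × ℂ)) (𝓝 (q₀, z))
        (𝓝 (q₀.1, z)) := by
      have : Continuous (fun w : (P × X × (X →L[ℂ] ℂ)) × ℂ => ((w.1.1, w.2) : P × ℂ)) := by
        fun_prop
      exact this.tendsto _
    exact h3.eventually h2
  have hB : ∀ᶠ q in 𝓝 q₀, ∀ z ∈ sphere z₀ r, m / 2 < ‖Phi T q z - 1‖ := by
    refine (isCompact_sphere z₀ r).eventually_forall_of_forall_eventually fun z hz => ?_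
    have h2 : ContinuousAt (fun w : (P × X × (X →L[ℂ] ℂ)) × ℂ => ‖Phi T w.1 w.2 - 1‖) (q₀, z) :=
      ((Phi_continuousAt T hT q₀ z (hres z (sphere_subset_closedBall hz))).sub
        continuousAt_const).norm
    exact h2.eventually_const_lt (by
      have := hmin z hz
      show m / 2 < ‖Phi T q₀ z - 1‖
      linarith)
  have hC : ∀ᶠ q in 𝓝 q₀, ‖Phi T q z₀ - 1‖ < m / 2 := by
    have h2 : ContinuousAt (fun w : (P × X × (X →L[ℂ] ℂ)) × ℂ => ‖Phi T w.1 w.2 - 1‖) (q₀, z₀) :=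
      ((Phi_continuousAt T hT q₀ z₀ hz₀).sub continuousAt_const).norm
    have h3 : ContinuousAt (fun q : P × X × (X →L[ℂ] ℂ) => ‖Phi T q z₀ - 1‖) q₀ :=
      ContinuousAt.comp (f := fun q : P × X × (X →L[ℂ] ℂ) => (q, z₀)) h2 (by fun_prop)
    refine h3.eventually_lt_const ?_
    show ‖Phi T q₀ z₀ - 1‖ < m / 2
    rw [h1, sub_self, norm_zero]
    linarith
  filter_upwards [hA, hB, hC] with q hqA hqB hqC
  by_contra hcon
  push Not at hcon
  have hnz : ∀ z ∈ closedBall z₀ r, Phi T q z - 1 ≠ 0 := fun z hz h0 =>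
    hcon z (hresN z hz) (hqA z hz) (sub_eq_zero.1 h0)
  have hd : DiffContOnCl ℂ (fun z => (Phi T q z - 1)⁻¹) (ball z₀ r) := by
    refine DifferentiableOn.diffContOnCl fun z hz => ?_
    have hz' : z ∈ closedBall z₀ r := closure_ball_subset_closedBall hz
    exact (((F_differentiableAt _ _ _ (hqA z hz')).sub_const 1).inv
      (hnz z hz')).differentiableWithinAt
  have hb := Complex.norm_le_of_forall_mem_frontier_norm_le isBounded_ball hd
    (C := (m / 2)⁻¹) (fun z hz => by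
      have hz' : z ∈ sphere z₀ r := frontier_ball_subset_sphere hz
      rw [norm_inv]
      exact inv_anti₀ (by positivity) (hqB z hz').le) (z := z₀)
    (subset_closure (mem_ball_self hr))
  rw [norm_inv] at hb
  have hpos : 0 < ‖Phi T q z₀ - 1‖ := norm_pos_iff.2 (hnz z₀ (mem_closedBall_self hr.le))
  rw [inv_le_inv₀ hpos (by positivity)] at hb
  linarith

/-- `F` is not constantly `1` near a point of the unbounded component. -/
theorem not_const [Nontrivial X] (T : X →L[ℂ] X) (u : X) (v : X →L[ℂ] ℂ) {z : ℂ}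
    (hz : z ∈ Om T) : ¬ ∀ᶠ w in 𝓝 z, F T u v w = 1 := by
  intro h
  have han : AnalyticOnNhd ℂ (F T u v) (Om T) := by
    refine DifferentiableOn.analyticOnNhd (fun w hw => ?_) (Om_open T)
    exact (F_differentiableAt T u v (Om_subset T hw)).differentiableWithinAt
  have hc : AnalyticOnNhd ℂ (fun _ : ℂ => (1 : ℂ)) (Om T) := analyticOnNhd_const
  have heq := han.eqOn_of_preconnected_of_eventuallyEq hc (Om_preconnected T) hz h
  set K : ℝ := ‖v‖ * ‖u‖ with hK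
  have hK0 : 0 ≤ K := by positivity
  set t : ℝ := ‖T‖ + K + 1 with ht
  have htn : ‖((t : ℝ) : ℂ)‖ = t := by
    rw [Complex.norm_real, Real.norm_of_nonneg (by positivity)]
  have hlt : ‖T‖ < ‖((t : ℝ) : ℂ)‖ := by rw [htn]; linarith
  have h1 := heq (mem_Om_of_lt T hlt)
  have h2 := norm_F_le T u v (Om_subset T (mem_Om_of_lt T hlt)) hlt
  simp only at h1
  rw [h1, norm_one, htn, le_div_iff₀ (by linarith)] at h2
  linarith

/-- the pairs `(u, v)` with `v u ≠ 0` are dense -/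
theorem pairing_dense [Nontrivial X] (u₁ : X) (v₁ : X →L[ℂ] ℂ) (ε : ℝ) (hε : 0 < ε) :
    ∃ (u : X) (v : X →L[ℂ] ℂ), ‖u - u₁‖ < ε ∧ ‖v - v₁‖ < ε ∧ v u ≠ 0 := by
  obtain ⟨x, hx⟩ := exists_ne (0 : X)
  have hx0 : 0 < ‖x‖ := norm_pos_iff.2 hx
  obtain ⟨f, hf, hfx⟩ := exists_dual_vector ℂ x hx0.ne'
  by_contra hcon
  push Not at hcon
  set δ : ℝ := ε / (4 * (‖x‖ + 1)) with hδ
  have hδ0 : 0 < δ := by positivity
  have key : ∀ k : ℝ, 0 ≤ k → k ≤ 3 → (v₁ + ((k * δ : ℝ) : ℂ) • f) (u₁ + ((k * δ : ℝ) : ℂ) • x) = 0 := by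
    intro k hk0 hk3
    have hk : k * δ * (‖x‖ + 1) < ε := by
      have : k * δ * (‖x‖ + 1) = k * ε / 4 := by rw [hδ]; field_simp
      rw [this]; nlinarith
    have hkδ : 0 ≤ k * δ := by positivity
    refine hcon _ _ ?_ ?_
    · rw [add_sub_cancel_left, norm_smul, Complex.norm_real, Real.norm_of_nonneg hkδ]
      nlinarith
    · rw [add_sub_cancel_left, norm_smul, Complex.norm_real, Real.norm_of_nonneg hkδ, hf]
      nlinarith
  have e1 := key 1 (by norm_num) (by norm_num)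
  have e2 := key 2 (by norm_num) (by norm_num)
  have e0 := key 3 (by norm_num) (by norm_num)
  simp only [map_add, map_smul, smul_eq_mul, add_apply,
          FunLike.coe_smul, Pi.smul_apply] at e0 e1 e2
  push_cast at e0 e1 e2
  have h2 : 2 * (δ : ℂ) ^ 2 * f x = 0 := by
    linear_combination e0 - 2 * e2 + e1
  rw [hfx] at h2
  have hδc : (δ : ℂ) ≠ 0 := by exact_mod_cast hδ0.ne'
  have hxc : (‖x‖ : ℂ) ≠ 0 := by exact_mod_cast hx0.ne'
  have h3 : 2 * (δ : ℂ) ^ 2 * (‖x‖ : ℂ) ≠ 0 :=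
    mul_ne_zero (mul_ne_zero two_ne_zero (pow_ne_zero 2 hδc)) hxc
  exact h3 h2

/-- **Main theorem, family form.** -/
theorem dense_interior [Nontrivial X] (T : P → (X →L[ℂ] X)) (hT : Continuous T) :
    Dense (interior {q : P × X × (X →L[ℂ] ℂ) |
      ∃ z ∈ resolventSet ℂ (T q.1), F (T q.1) q.2.1 q.2.2 z = 1}) := by
  intro q
  obtain ⟨p, u₁, v₁⟩ := q
  rw [mem_closure_iff_nhds]
  intro N hN
  rw [nhds_prod_eq, nhds_prod_eq] at hN
  obtain ⟨N₁, hN₁, N₂, hN₂, hsub⟩ := Filter.mem_prod_iff.1 hN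
  rw [← nhds_prod_eq] at hN₂
  obtain ⟨ε, hε, hball⟩ := Metric.mem_nhds_iff.1 hN₂
  obtain ⟨u₀, v₀, hu₀, hv₀, h0⟩ := pairing_dense u₁ v₁ (ε / 2) (by positivity)
  obtain ⟨u, v, hu, hv, z, hz, hF⟩ := density (T p) u₀ v₀ h0 (ε / 2) (by positivity)
  refine ⟨(p, u, v), hsub ⟨mem_of_mem_nhds hN₁, hball ?_⟩, ?_⟩
  · rw [mem_ball, Prod.dist_eq, max_lt_iff]
    constructor
    · rw [dist_eq_norm]
      calc ‖u - u₁‖ = ‖(u - u₀) + (u₀ - u₁)‖ := by congr 1; abel
        _ ≤ ‖u - u₀‖ + ‖u₀ - u₁‖ := norm_add_le _ _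
        _ < ε := by linarith
    · rw [dist_eq_norm]
      calc ‖v - v₁‖ = ‖(v - v₀) + (v₀ - v₁)‖ := by congr 1; abel
        _ ≤ ‖v - v₀‖ + ‖v₀ - v₁‖ := norm_add_le _ _
        _ < ε := by linarith
  · rw [mem_interior_iff_mem_nhds]
    filter_upwards [stability T hT (p, u, v) z (Om_subset _ hz) hF (not_const (T p) u v hz)
      univ univ_mem] with q hq
    obtain ⟨z', -, h1, h2⟩ := hq
    exact ⟨z', h1, h2⟩

end Pool.Agent.U524.RO
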